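import Pool.Agent.LibBE37N.Defs

/-! ROW A1 : the amplitudes. MEDIUM.
PLAN. `Ac_amp`: `amp_aR` (LibSC35/M1) and `rd_indc` (LibNV73/Q5). `Ac_sc`: `ftF (ind n) s = ∫ u in 0..n, exp (-(i s u)) = n * ftF (ind 1) (n s)` (substitution `u = n v`), unfold `sc`, `aR`.
`Ac_Am`: `ρ` from the compact support of `b` (as in `ampB_ind`, LibNV73/Q5, `ρ = max 1 r`). `M j = 4 * 2 ^ j * D j` with `D j ≥ ‖iteratedDeriv i b t‖` for all `i ≤ j` and `t` (private lemma `Q5_bdd` of LibNV73/Q5: copy it for all orders `j`).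
`iteratedDeriv i (ftF (ind c)) t` has norm at most `∫ u in 0..c, u ^ i ≤ c ^ (i + 1)` for `c ≥ 0` (`Q5_ft`, private, with `2` replaced by `c`: same proof). For `sc (Ac b n) Λ t = (2 / Λ) * ftF (ind n) (t / Λ) * b (t / Λ)`
the derivative of order `j` is `(2 / Λ) Λ ^ (-j) (ftF (ind n) * b)^(j) (t / Λ)`, Leibniz (`norm_iteratedDeriv_mul_le`): norm `≤ (2 / Λ) Λ ^ (-j) ∑ i, C(j,i) n ^ (i + 1) D j ≤ 2 * 2 ^ j * D j` because `n ≤ Λ`, `1 ≤ Λ`
(`n ^ (i+1) ≤ Λ ^ (j + 1)`). `conj`: `IsAmp.herm`. The same for `sc b Λ`. -/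

open MeasureTheory Set Filter Topology
open scoped ContDiff unitInterval

namespace N37

variable [F37.Sq]

open FG33 SC35 GWin NV73

variable {b : ℝ → ℂ}

private theorem A1_ind_nn (c u : ℝ) : 0 ≤ ind c u ∧ ind c u ≤ 1 := by
  unfold ind
  by_cases hy : u ∈ Ico (0 : ℝ) c
  · rw [indicator_of_mem hy]
    simp
  · rw [indicator_of_notMem hy]
    simp

private theorem A1_ind_int (c : ℝ) : Integrable (ind c) := by
  simpa using rd_int (rd_indc (c := c)) 0

private theorem A1_ind_val {c : ℝ} (hc : 0 ≤ c) : ∫ u, ind c u = c := by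
  unfold ind
  rw [integral_indicator measurableSet_Ico]
  simp [hc]

private theorem A1_ft {c : ℝ} (hc0 : 0 ≤ c) (j : ℕ) (t : ℝ) :
    ‖iteratedDeriv j (ftF (ind c)) t‖ ≤ c ^ (j + 1) := by
  have hf := rd_indc (c := c)
  obtain ⟨F, hF⟩ : ∃ F : ℝ → ℂ, F = FourierTransform.fourier (fun u : ℝ => (ind c u : ℂ)) :=
    ⟨_, rfl⟩
  have hF1 : ContDiff ℝ ∞ F := by
    rw [hF]
    refine Real.contDiff_fourier fun n _ => ?_
    refine (rd_int hf n).norm.congr (Eventually.of_forall fun u => ?_)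
    simp
  have hcd : ContDiff ℝ j F := hF1.of_le (by exact_mod_cast le_top)
  have e1 : ftF (ind c) = fun t => F ((2 * Real.pi)⁻¹ * t) := by
    rw [M1_fourier, hF]
    funext t
    rw [mul_comm]
  have e2 : iteratedDeriv j (ftF (ind c)) t =
      ((2 * Real.pi)⁻¹ ^ j : ℝ) • iteratedDeriv j F ((2 * Real.pi)⁻¹ * t) := by
    rw [e1]
    have := congrFun (iteratedDeriv_comp_const_smul hcd (2 * Real.pi)⁻¹) t
    simpa only [smul_eq_mul] using this
  have e3 : iteratedDeriv j F = FourierTransform.fourier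
      (fun x : ℝ => (-2 * Real.pi * Complex.I * x) ^ j • ((ind c x : ℝ) : ℂ)) := by
    rw [hF]
    refine Real.iteratedDeriv_fourier (N := ⊤) (fun n _ => ?_) le_top
    refine (rd_int hf n).norm.mono' ?_ (Eventually.of_forall fun u => ?_)
    · exact ((continuous_id.pow n).aestronglyMeasurable).smul
        (Complex.measurable_ofReal.comp hf.meas).aestronglyMeasurable
    · rw [norm_smul, norm_mul, norm_pow, norm_pow, Complex.norm_real, Real.norm_eq_abs |u|, abs_abs,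
        Real.norm_eq_abs u]
  have h1 : ‖iteratedDeriv j F ((2 * Real.pi)⁻¹ * t)‖ ≤ (2 * Real.pi) ^ j * c ^ (j + 1) := by
    rw [e3, Real.fourier_real_eq_integral_exp_smul]
    refine (norm_integral_le_integral_norm _).trans ?_
    have h2 : ∫ u, ‖Complex.exp (↑(-2 * Real.pi * u * ((2 * Real.pi)⁻¹ * t)) * Complex.I) •
        ((-2 * Real.pi * Complex.I * u) ^ j • ((ind c u : ℝ) : ℂ))‖ ≤
        ∫ u, (2 * Real.pi) ^ j * c ^ j * ind c u := by
      refine integral_mono_of_nonneg (Eventually.of_forall fun u => norm_nonneg _)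
        ((A1_ind_int c).const_mul _) (Eventually.of_forall fun u => ?_)
      have h3 := A1_ind_nn c u
      dsimp only
      rw [norm_smul, Complex.norm_exp_ofReal_mul_I, one_mul, norm_smul, norm_pow, Complex.norm_real,
        Real.norm_of_nonneg h3.1]
      have h4 : ‖(-2 * Real.pi * Complex.I * u : ℂ)‖ = 2 * Real.pi * |u| := by
        rw [norm_mul, norm_mul, norm_mul, Complex.norm_I, Complex.norm_real, Complex.norm_real,
          Real.norm_of_nonneg Real.pi_pos.le, Real.norm_eq_abs]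
        simp
      rw [h4]
      by_cases hu : u ∈ Ico (0 : ℝ) c
      · have h5 : |u| ≤ c := by
          rw [abs_of_nonneg hu.1]
          exact hu.2.le
        rw [mul_pow]
        have := h3.1
        have := Real.pi_pos
        gcongr
      · have h5 : ind c u = 0 := by
          unfold ind
          rw [indicator_of_notMem hu]
        rw [h5, mul_zero, mul_zero]
    refine h2.trans ?_
    rw [integral_const_mul, A1_ind_val hc0, pow_succ c j]
    exact le_of_eq (by ring)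
  rw [e2, norm_smul, Real.norm_of_nonneg (by positivity)]
  calc (2 * Real.pi)⁻¹ ^ j * ‖iteratedDeriv j F ((2 * Real.pi)⁻¹ * t)‖
      ≤ (2 * Real.pi)⁻¹ ^ j * ((2 * Real.pi) ^ j * c ^ (j + 1)) := by gcongr
    _ = _ := by
      rw [← mul_assoc, ← mul_pow, inv_mul_cancel₀ (by positivity), one_pow, one_mul]

private theorem A1_bdd {a : ℝ → ℂ} (ha : IsAmp a) : ∃ D : ℕ → ℝ, (∀ j, 0 ≤ D j) ∧
    ∀ j, ∀ i ≤ j, ∀ t, ‖iteratedDeriv i a t‖ ≤ D j := by
  have h1 : ∀ j : ℕ, ∃ B : ℝ, ∀ t, ‖iteratedDeriv j a t‖ ≤ B := by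
    intro j
    have hc : Continuous (iteratedDeriv j a) :=
      ha.smooth.continuous_iteratedDeriv j (by exact_mod_cast le_top)
    have hs : HasCompactSupport (iteratedDeriv j a) := by
      have h2 := ha.supp.iteratedFDeriv (𝕜 := ℝ) j
      have h3 : iteratedDeriv j a = fun t => iteratedFDeriv ℝ j a t (fun _ => 1) := by
        ext t; rw [iteratedDeriv_eq_iteratedFDeriv]
      rw [h3]
      exact h2.comp_left (g := fun m => m (fun _ => (1 : ℝ))) (by simp)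
    obtain ⟨x, hx⟩ := hc.norm.exists_forall_ge_of_hasCompactSupport hs.norm
    exact ⟨_, hx⟩
  choose B hB using h1
  have hB0 : ∀ j, 0 ≤ B j := fun j => (norm_nonneg _).trans (hB j 0)
  refine ⟨fun j => ∑ i ∈ Finset.range (j + 1), B i,
    fun j => Finset.sum_nonneg fun i _ => hB0 i, fun j i hi t => ?_⟩
  have h5 : B i ≤ ∑ i ∈ Finset.range (j + 1), B i :=
    Finset.single_le_sum (fun i _ => hB0 i) (by simp; omega)
  exact (hB i t).trans h5

private theorem A1_scale (G : ℝ → ℂ) (hG : ContDiff ℝ ∞ G) {Λ : ℝ} (hΛ : 0 < Λ) (j : ℕ) (t : ℝ) :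
    ‖iteratedDeriv j (sc G Λ) t‖ = 2 / Λ * (Λ⁻¹ ^ j * ‖iteratedDeriv j G (Λ⁻¹ * t)‖) := by
  have hGj : ContDiff ℝ j G := hG.of_le (by exact_mod_cast le_top)
  have e1 : sc G Λ = fun t => ((2 / Λ : ℝ) : ℂ) * (fun s => G (Λ⁻¹ * s)) t := by
    funext t
    unfold sc
    rw [div_eq_inv_mul t Λ]
  have hg : ContDiff ℝ j (fun s => G (Λ⁻¹ * s)) :=
    hGj.comp (contDiff_const.mul contDiff_id)
  have e2 : iteratedDeriv j (fun s => G (Λ⁻¹ * s)) t =
      ((Λ⁻¹ ^ j : ℝ)) • iteratedDeriv j G (Λ⁻¹ * t) := by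
    have := congrFun (iteratedDeriv_comp_const_smul hGj Λ⁻¹) t
    simpa only [smul_eq_mul] using this
  rw [e1, iteratedDeriv_const_mul_field, norm_mul, Complex.norm_real,
    Real.norm_of_nonneg (by positivity), e2, norm_smul, Real.norm_of_nonneg (by positivity)]

private theorem A1_prod (hb : Ker b) {D : ℕ → ℝ} (hD0 : ∀ j, 0 ≤ D j)
    (hD : ∀ j, ∀ i ≤ j, ∀ t, ‖iteratedDeriv i b t‖ ≤ D j) {c Λ : ℝ} (hc0 : 0 ≤ c) (hc : c ≤ Λ)
    (hΛ : 1 ≤ Λ) (j : ℕ) (t : ℝ) :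
    ‖iteratedDeriv j (Ac b c) t‖ ≤ 2 ^ j * Λ ^ (j + 1) * D j := by
  have hΛ0 : 0 < Λ := by linarith
  have e1 : Ac b c = fun t => ftF (ind c) t * b t := by
    funext t
    unfold Ac aR
    rw [div_one]
  have hf : ContDiff ℝ j (ftF (ind c)) := (ftF_smooth rd_indc).of_le (by exact_mod_cast le_top)
  have hg : ContDiff ℝ j b := hb.amp.smooth.of_le (by exact_mod_cast le_top)
  rw [← norm_iteratedFDeriv_eq_norm_iteratedDeriv, e1]
  refine (norm_iteratedFDeriv_mul_le (N := j) hf hg t le_rfl).trans ?_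
  have h1 : ∀ i ∈ Finset.range (j + 1), (j.choose i : ℝ) * ‖iteratedFDeriv ℝ i (ftF (ind c)) t‖ *
      ‖iteratedFDeriv ℝ (j - i) b t‖ ≤ (j.choose i : ℝ) * (Λ ^ (j + 1) * D j) := by
    intro i hi
    have hi' : i ≤ j := by
      have := Finset.mem_range.1 hi
      omega
    rw [norm_iteratedFDeriv_eq_norm_iteratedDeriv, norm_iteratedFDeriv_eq_norm_iteratedDeriv,
      mul_assoc]
    refine mul_le_mul_of_nonneg_left ?_ (Nat.cast_nonneg _)
    have h2 : ‖iteratedDeriv i (ftF (ind c)) t‖ ≤ Λ ^ (j + 1) := by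
      refine (A1_ft hc0 i t).trans ?_
      calc c ^ (i + 1) ≤ Λ ^ (i + 1) := by gcongr
        _ ≤ Λ ^ (j + 1) := pow_le_pow_right₀ hΛ (by omega)
    have h3 : ‖iteratedDeriv (j - i) b t‖ ≤ D j := hD j (j - i) (by omega) t
    have := hD0 j
    gcongr
  refine (Finset.sum_le_sum h1).trans ?_
  rw [← Finset.sum_mul]
  have h2 : (∑ i ∈ Finset.range (j + 1), (j.choose i : ℝ)) = 2 ^ j := by
    exact_mod_cast Nat.sum_range_choose j
  rw [h2]
  exact le_of_eq (by ring)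

private theorem A1_ftn {n : ℕ} (hn : 1 ≤ n) (s : ℝ) :
    ftF (ind n) s = (n : ℂ) * ftF (ind 1) (n * s) := by
  have hn0 : (0 : ℝ) < n := by exact_mod_cast hn
  have h1 : ∀ u : ℝ, ind 1 u = ind n (n * u) := by
    intro u
    unfold ind
    by_cases hu : u ∈ Ico (0 : ℝ) 1
    · have hu' : (n : ℝ) * u ∈ Ico (0 : ℝ) n := by
        refine ⟨mul_nonneg hn0.le hu.1, ?_⟩
        have := hu.2
        nlinarith
      rw [indicator_of_mem hu, indicator_of_mem hu']
      simp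
    · have hu' : (n : ℝ) * u ∉ Ico (0 : ℝ) n := by
        rintro ⟨h2, h3⟩
        apply hu
        constructor
        · by_contra h4
          push Not at h4
          nlinarith
        · by_contra h4
          push Not at h4
          nlinarith
      rw [indicator_of_notMem hu, indicator_of_notMem hu']
  unfold ftF
  have h2 : ∫ u, ((ind 1 u : ℝ) : ℂ) * Complex.exp (-(Complex.I * (((n : ℝ) * s) * u : ℝ))) =
      ∫ u, (fun v : ℝ => ((ind n v : ℝ) : ℂ) * Complex.exp (-(Complex.I * (s * v : ℝ)))) (n * u) := by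
    refine integral_congr_ae (Eventually.of_forall fun u => ?_)
    dsimp only
    rw [h1 u]
    congr 3
    push_cast
    ring
  rw [h2, Measure.integral_comp_mul_left (fun v : ℝ => ((ind n v : ℝ) : ℂ) *
    Complex.exp (-(Complex.I * (s * v : ℝ)))) (n : ℝ), abs_of_pos (inv_pos.2 hn0)]
  rw [Complex.real_smul, ← mul_assoc]
  have h3 : (n : ℂ) * (((n : ℝ)⁻¹ : ℝ) : ℂ) = 1 := by
    have : (n : ℂ) ≠ 0 := by exact_mod_cast hn0.ne'
    push_cast
    field_simp
  rw [h3, one_mul]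

theorem Ac_amp (hb : Ker b) (c : ℝ) : IsAmp (Ac b c) := by
  unfold Ac
  exact amp_aR hb rd_indc one_pos

theorem Ac_sc (b : ℝ → ℂ) {n : ℕ} (hn : 1 ≤ n) {Λ : ℝ} (hΛ : 0 < Λ) :
    sc (Ac b n) Λ = sc (aR b (ind 1) n) (Λ / n) := by
  have hn0 : (0 : ℝ) < n := by exact_mod_cast hn
  have hnC : (n : ℂ) ≠ 0 := by exact_mod_cast hn0.ne'
  have hΛC : (Λ : ℂ) ≠ 0 := by exact_mod_cast hΛ.ne'
  funext t
  unfold sc Ac aR
  have e1 : t / Λ / 1 = t / (Λ / n) / n := by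
    field_simp
  have e2 : (n : ℝ) * (t / Λ) = t / (Λ / n) := by
    field_simp
  rw [A1_ftn hn, e2, e1]
  push_cast
  field_simp

theorem Ac_Am (hb : Ker b) : ∃ (ρ : ℝ) (M : ℕ → ℝ), 1 ≤ ρ ∧ (∀ s, ρ < |s| → b s = 0) ∧
    ∀ Λ : ℝ, 1 ≤ Λ → F37.Am M (ρ * Λ) (sc b Λ) ∧
      ∀ n : ℕ, (n : ℝ) ≤ Λ → F37.Am M (ρ * Λ) (sc (Ac b n) Λ) := by
  obtain ⟨D, hD0, hD⟩ := A1_bdd hb.amp
  obtain ⟨r, hr⟩ := (Metric.isBounded_iff_subset_closedBall (0 : ℝ)).1 hb.amp.supp.isCompact.isBounded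
  have hρ : ∀ s, max 1 r < |s| → b s = 0 := by
    intro s hs
    by_contra h2
    have h3 : s ∈ tsupport b := subset_tsupport b h2
    have h4 := hr h3
    rw [mem_closedBall_zero_iff, Real.norm_eq_abs] at h4
    exact absurd (hs.trans_le h4) (not_lt.2 (le_max_right _ _))
  have hsm : ∀ (G : ℝ → ℂ), ContDiff ℝ ∞ G → ∀ Λ : ℝ, ContDiff ℝ ∞ (sc G Λ) := by
    intro G hG Λ
    unfold sc
    exact contDiff_const.mul (hG.comp (contDiff_id.div_const Λ))
  have hcj : ∀ (G : ℝ → ℂ), (∀ t, G (-t) = (starRingEnd ℂ) (G t)) → ∀ (Λ t : ℝ),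
      sc G Λ (-t) = (starRingEnd ℂ) (sc G Λ t) := by
    intro G hG Λ t
    unfold sc
    rw [neg_div, hG, map_mul, Complex.conj_ofReal]
  refine ⟨max 1 r, fun j => 4 * 2 ^ j * D j, le_max_left _ _, hρ, fun Λ hΛ => ?_⟩
  have hΛ0 : 0 < Λ := by linarith
  have hout : ∀ t : ℝ, max 1 r * Λ < |t| → b (t / Λ) = 0 := by
    intro t ht
    apply hρ
    rw [abs_div, abs_of_pos hΛ0, lt_div_iff₀ hΛ0]
    exact ht
  constructor
  · refine ⟨hsm b hb.amp.smooth Λ, hcj b hb.amp.herm Λ, fun t ht => ?_, fun j t => ?_⟩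
    · unfold sc
      rw [hout t ht, mul_zero]
    · rw [A1_scale b hb.amp.smooth hΛ0]
      have h1 : ‖iteratedDeriv j b (Λ⁻¹ * t)‖ ≤ D j := hD j j le_rfl _
      have h2 : Λ⁻¹ ^ j ≤ 1 := pow_le_one₀ (by positivity) (inv_le_one_of_one_le₀ hΛ)
      have h3 : 2 / Λ ≤ 2 := by
        rw [div_le_iff₀ hΛ0]
        linarith
      have h4 : (1 : ℝ) ≤ 2 ^ j := one_le_pow₀ (by norm_num)
      have h5 := hD0 j
      calc 2 / Λ * (Λ⁻¹ ^ j * ‖iteratedDeriv j b (Λ⁻¹ * t)‖) ≤ 2 * (1 * D j) := by gcongr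
        _ ≤ 4 * 2 ^ j * D j := by nlinarith
  · intro n hn
    have hA := Ac_amp hb (n : ℝ)
    refine ⟨hsm _ hA.smooth Λ, hcj _ hA.herm Λ, fun t ht => ?_, fun j t => ?_⟩
    · unfold sc Ac aR
      rw [div_one, hout t ht, mul_zero, mul_zero]
    · rw [A1_scale _ hA.smooth hΛ0]
      have h1 := A1_prod hb hD0 hD (Nat.cast_nonneg n) hn hΛ j (Λ⁻¹ * t)
      have h5 := hD0 j
      calc 2 / Λ * (Λ⁻¹ ^ j * ‖iteratedDeriv j (Ac b n) (Λ⁻¹ * t)‖)
          ≤ 2 / Λ * (Λ⁻¹ ^ j * (2 ^ j * Λ ^ (j + 1) * D j)) := by gcongr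
        _ = 2 * 2 ^ j * D j := by
            have h6 : Λ⁻¹ ^ j * Λ ^ (j + 1) = Λ := by
              rw [pow_succ, ← mul_assoc, ← mul_pow, inv_mul_cancel₀ hΛ0.ne', one_pow, one_mul]
            calc 2 / Λ * (Λ⁻¹ ^ j * (2 ^ j * Λ ^ (j + 1) * D j))
                = 2 / Λ * (Λ⁻¹ ^ j * Λ ^ (j + 1)) * (2 ^ j * D j) := by ring
              _ = 2 * 2 ^ j * D j := by
                rw [h6, div_mul_cancel₀ _ hΛ0.ne']
                ring
        _ ≤ 4 * 2 ^ j * D j := by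
            have : 0 ≤ 2 ^ j * D j := by positivity
            nlinarith

end N37
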