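import Pool.Agent.LibBE37N.A1

/-! ROW A2 : the statistics of the mollified windows. MEDIUM.
PLAN. `tf_aR` (LibSC35/M1): `tf (aR b f R) y = ∫ u, f u * (R * tf b (R * (y - u)))`; for `f = ind c`, `R = 1`: `tf (Ac b c) y = ∫ u in 0..c, tf b (y - u)`; for `f = ind 1`, `R = M`: substitution `v = M u` gives `tf (aR b (ind 1) M) y = tf (Ac b M) (M y)`.
`st` (LibGWa/U3): `st κ a l τ = ∑' k, tf a (l (κ k - τ)) - τ / (2 π l) ∫ tf a`; `int_aR`, `hb.one`: `∫ tf (Ac b c) = c`. `st_aR`: termwise. `st_Ac`: `∑' k, ∫ u in c'..c, tf b (Λ (κ k - τ) - u) = ∫ u in c'..c, ∑' k, tf b (Λ (κ k - (τ + u / Λ)))`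
(`hasSum_integral_of_summable_norm` / `integral_tsum`: `tf b ≥ 0`, `|tf b (Λ (κ k - τ) - u)| ≤ B (1 + |τ| + |u|) ^ 4 / (κ k + 1) ^ 4`, `zsum`; see `term_summable`, `st_cont` in LibGWa), and
`∫ u in c'..c, (τ + u / Λ) / (2 π Λ) = τ (c - c') / (2 π Λ) + (c ^ 2 - c' ^ 2) / (4 π Λ ^ 2)`. -/

open MeasureTheory Set Filter Topology
open scoped ContDiff unitInterval

namespace N37

variable [F37.Sq]

open FG33 SC35 GWin NV73

variable {b : ℝ → ℂ} {lev : ℕ → ℝ}

private theorem A2_tf (hb : Ker b) {c : ℝ} (hc : 0 ≤ c) (y : ℝ) :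
    tf (Ac b c) y = ∫ u in (0 : ℝ)..c, tf b (y - u) := by
  unfold Ac
  rw [tf_aR hb rd_indc one_pos]
  have h1 : (fun u => ind c u * (1 * tf b (1 * (y - u)))) =
      indicator (Ico (0 : ℝ) c) (fun u => tf b (y - u)) := by
    ext u
    unfold ind
    by_cases hu : u ∈ Ico (0 : ℝ) c
    · rw [indicator_of_mem hu, indicator_of_mem hu, Pi.one_apply]
      ring_nf
    · rw [indicator_of_notMem hu, indicator_of_notMem hu, zero_mul]
  rw [h1, integral_indicator measurableSet_Ico, intervalIntegral.integral_of_le hc,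
    integral_Ico_eq_integral_Ioc]

private theorem A2_ind {c : ℝ} (hc : 0 ≤ c) : ∫ u, ind c u = c := by
  unfold ind
  rw [integral_indicator measurableSet_Ico]
  simp [hc]

private theorem A2_int (hb : Ker b) {c : ℝ} (hc : 0 ≤ c) : ∫ y, tf (Ac b c) y = c := by
  unfold Ac
  rw [int_aR hb rd_indc one_pos, A2_ind hc]

theorem st_aR (hb : Ker b) (lev : ℕ → ℝ) {M L : ℝ} (hM : 0 < M) (hL : 0 < L) (τ : ℝ) :
    st lev (aR b (ind 1) M) L τ = st lev (Ac b M) (L * M) τ := by
  have h1 : ∀ y, tf (aR b (ind 1) M) y = tf (Ac b M) (M * y) := by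
    intro y
    unfold Ac
    rw [tf_aR hb rd_indc hM, tf_aR hb rd_indc one_pos]
    have h2 : (fun u => ind 1 u * (M * tf b (M * (y - u)))) =
        fun u => M * ((fun v => ind M v * (1 * tf b (1 * (M * y - v)))) (M * u)) := by
      ext u
      dsimp only
      have h3 : ind M (M * u) = ind 1 u := by
        unfold ind
        by_cases hu : u ∈ Ico (0 : ℝ) 1
        · rw [indicator_of_mem hu, indicator_of_mem, Pi.one_apply]
          · rfl
          · exact ⟨mul_nonneg hM.le hu.1, by nlinarith [hu.2]⟩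
        · rw [indicator_of_notMem hu, indicator_of_notMem]
          intro h
          apply hu
          refine ⟨?_, ?_⟩
          · by_contra h4
            push Not at h4
            nlinarith [h.1]
          · by_contra h4
            push Not at h4
            nlinarith [h.2]
      rw [h3, one_mul, one_mul, mul_sub]
      ring
    rw [h2, integral_const_mul,
      Measure.integral_comp_mul_left (fun v => ind M v * (1 * tf b (1 * (M * y - v)))) M,
      abs_of_pos (inv_pos.2 hM), smul_eq_mul, ← mul_assoc, mul_inv_cancel₀ hM.ne', one_mul]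
  unfold st
  rw [int_aR hb rd_indc hM, A2_ind zero_le_one, A2_int hb hM.le]
  congr 1
  · refine tsum_congr fun k => ?_
    rw [h1]
    congr 1
    ring
  · field_simp

theorem st_Ac (hb : Ker b) (hl : Lev lev) {Λ : ℝ} (hΛ : 0 < Λ) {c c' : ℝ} (hc' : 0 ≤ c')
    (hc : c' ≤ c) (τ : ℝ) :
    st lev (Ac b c) Λ τ - st lev (Ac b c') Λ τ =
      (∫ u in c'..c, st lev b Λ (τ + u / Λ)) + (c ^ 2 - c' ^ 2) / (4 * Real.pi * Λ ^ 2) := by
  have hc0 : 0 ≤ c := hc'.trans hc
  have hcont : Continuous (tf b) := tf_cont hb.amp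
  have hA : ∀ d : ℝ, IsAmp (Ac b d) := fun d => amp_aR hb rd_indc one_pos
  obtain ⟨B, hB, hbd⟩ := tf_decay hb.amp
  have hm : 0 < min 1 Λ := lt_min one_pos hΛ
  set F : ℕ → ℝ → ℝ := fun k u => tf b (Λ * (lev k - (τ + u / Λ))) with hF
  have hFe : ∀ k u, F k u = tf b (Λ * (lev k - τ) - u) := by
    intro k u
    rw [hF]
    dsimp only
    congr 1
    have := hΛ.ne'
    field_simp
    ring
  have hFc : ∀ k, Continuous (F k) := fun k => hcont.comp (by fun_prop)
  have hK : ∀ k u, u ∈ uIoc c' c → ‖F k u‖ ≤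
      B * ((1 + (|τ| + c / Λ)) / min 1 Λ) ^ 4 * (1 / (lev k + 1) ^ 4) := by
    intro k u hu
    rw [uIoc_of_le hc] at hu
    rw [Real.norm_eq_abs]
    refine (term_bound hB hbd hl hΛ (τ + u / Λ) k).trans ?_
    have h0 := hl.nn k
    have h3 : |τ + u / Λ| ≤ |τ| + c / Λ := by
      refine (abs_add_le _ _).trans ?_
      have h4 : |u / Λ| = u / Λ := abs_of_nonneg (div_nonneg (hc'.trans hu.1.le) hΛ.le)
      rw [h4]
      have h5 : u / Λ ≤ c / Λ := div_le_div_of_nonneg_right hu.2 hΛ.le
      linarith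
    gcongr
  have hsum : HasSum (fun k => ∫ u in c'..c, F k u) (∫ u in c'..c, ∑' k, F k u) := by
    refine intervalIntegral.hasSum_integral_of_dominated_convergence
      (fun k _ => B * ((1 + (|τ| + c / Λ)) / min 1 Λ) ^ 4 * (1 / (lev k + 1) ^ 4)) ?_ ?_ ?_ ?_ ?_
    · exact fun k => (hFc k).aestronglyMeasurable
    · exact fun k => Eventually.of_forall fun u hu => hK k u hu
    · exact Eventually.of_forall fun u _ => (zsum hl).mul_left _
    · exact intervalIntegrable_const
    · refine Eventually.of_forall fun u _ => ?_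
      exact (term_summable hb.amp hl hΛ (τ + u / Λ)).hasSum
  have hS1 : (∑' k, tf (Ac b c) (Λ * (lev k - τ))) - (∑' k, tf (Ac b c') (Λ * (lev k - τ))) =
      ∫ u in c'..c, ∑' k, F k u := by
    rw [← (term_summable (hA c) hl hΛ τ).tsum_sub (term_summable (hA c') hl hΛ τ), ← hsum.tsum_eq]
    refine tsum_congr fun k => ?_
    rw [A2_tf hb hc0, A2_tf hb hc']
    have hi : ∀ p q : ℝ, IntervalIntegrable (fun u => tf b (Λ * (lev k - τ) - u)) volume p q :=
      fun p q => (hcont.comp (by fun_prop)).intervalIntegrable p q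
    rw [intervalIntegral.integral_interval_sub_left (hi 0 c) (hi 0 c')]
    refine intervalIntegral.integral_congr fun u _ => ?_
    exact (hFe k u).symm
  have hS2 : ∫ u in c'..c, st lev b Λ (τ + u / Λ) = (∫ u in c'..c, ∑' k, F k u) -
      ∫ u in c'..c, (τ + u / Λ) / (2 * Real.pi * Λ) := by
    have hcs : Continuous fun u => ∑' k, F k u := by
      have h5 : (fun u => ∑' k, F k u) =
          fun u => st lev b Λ (τ + u / Λ) + (τ + u / Λ) / (2 * Real.pi * Λ) := by
        ext u
        unfold st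
        rw [hb.one]
        simp [hF]
      rw [h5]
      exact ((st_cont hb.amp hl hΛ).comp (by fun_prop)).add (by fun_prop)
    rw [← intervalIntegral.integral_sub (hcs.intervalIntegrable _ _)
      (Continuous.intervalIntegrable (by fun_prop) _ _)]
    refine intervalIntegral.integral_congr fun u _ => ?_
    unfold st
    rw [hb.one, mul_one]
  have hS3 : ∫ u in c'..c, (τ + u / Λ) / (2 * Real.pi * Λ) =
      τ * (c - c') / (2 * Real.pi * Λ) + (c ^ 2 - c' ^ 2) / (4 * Real.pi * Λ ^ 2) := by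
    have h6 : (fun u : ℝ => (τ + u / Λ) / (2 * Real.pi * Λ)) =
        fun u => τ / (2 * Real.pi * Λ) + (1 / (2 * Real.pi * Λ ^ 2)) * u := by
      ext u
      have := hΛ.ne'
      have := Real.pi_ne_zero
      field_simp
    rw [h6, intervalIntegral.integral_add intervalIntegrable_const
      (Continuous.intervalIntegrable (by fun_prop) _ _), intervalIntegral.integral_const,
      intervalIntegral.integral_const_mul, integral_id, smul_eq_mul]
    have := hΛ.ne'
    have := Real.pi_ne_zero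
    field_simp
    ring
  have hS4 : st lev (Ac b c) Λ τ - st lev (Ac b c') Λ τ =
      ((∑' k, tf (Ac b c) (Λ * (lev k - τ))) - (∑' k, tf (Ac b c') (Λ * (lev k - τ)))) -
        τ * (c - c') / (2 * Real.pi * Λ) := by
    unfold st
    rw [A2_int hb hc0, A2_int hb hc']
    ring
  rw [hS4, hS1, hS2, hS3]
  ring

end N37
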