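import Pool.Agent.LibBE37N.A2

/-! ROW A3 : from the integral windows to all windows. MEDIUM.
PLAN. `n = ⌊c⌋₊`, `n ≤ c < n + 1`, `c ≤ Λ`. By `st_Ac` (A2) `st (Ac n) = st (Ac c) - E`, `E τ = ∫ u in n..c, st b Λ (τ + u / Λ) + e`, `0 ≤ e ≤ 1 / (4 π)` (`c ^ 2 ≤ Λ ^ 2`). `st (Ac n) ^ 2 ≤ 2 st (Ac c) ^ 2 + 2 E ^ 2`, `E ^ 2 ≤ 2 (∫ u in n..c, ..) ^ 2 + 2 e ^ 2`,
Cauchy-Schwarz: `(∫ u in n..c, g u) ^ 2 ≤ (c - n) ∫ u in n..c, g u ^ 2 ≤ ∫ u in n..c, g u ^ 2` (e.g. `BF73`/`FB23` Jensen lemmas, or expand `0 ≤ ∫ (g - mean) ^ 2`); Fubini in `τ ∈ [P, 2 P]` and `u ∈ [n, c]` (everything continuous: `st_cont` (LibGWa), `intervalIntegral_integral_interchange..` or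
`MeasureTheory.integral_integral_swap`), and for fixed `u` with `0 ≤ u / Λ ≤ 1 ≤ P`: `∫ τ in P..2 P, st b Λ (τ + u / Λ) ^ 2 = ∫ τ in P + u / Λ..2 P + u / Λ, st b Λ τ ^ 2 ≤ ∫ τ in P..3 P, st b Λ τ ^ 2`. -/

open MeasureTheory Set Filter Topology
open scoped ContDiff unitInterval

namespace N37

variable [F37.Sq]

open FG33 SC35 GWin NV73

variable {b : ℝ → ℂ} {lev : ℕ → ℝ}

private theorem A3_lin {f h : ℝ → ℝ} (hf : Continuous f) (hh : Continuous h) (a k x y : ℝ) :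
    ∫ u in x..y, (f u + a * h u + k) = (∫ u in x..y, f u) + a * (∫ u in x..y, h u) +
      k * (y - x) := by
  have h1 : IntervalIntegrable (fun u => f u) volume x y := hf.intervalIntegrable _ _
  have h2 : IntervalIntegrable (fun u => a * h u) volume x y :=
    (continuous_const.mul hh).intervalIntegrable _ _
  have h3 : IntervalIntegrable (fun u => f u + a * h u) volume x y := h1.add h2
  have h4 : IntervalIntegrable (fun _ : ℝ => k) volume x y := continuous_const.intervalIntegrable _ _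
  rw [intervalIntegral.integral_add h3 h4, intervalIntegral.integral_add h1 h2,
    intervalIntegral.integral_const_mul, intervalIntegral.integral_const, smul_eq_mul]
  ring

private theorem A3_cs {g : ℝ → ℝ} (hg : Continuous g) {x y : ℝ} (h : x ≤ y) (h1 : y - x ≤ 1) :
    (∫ u in x..y, g u) ^ 2 ≤ ∫ u in x..y, g u ^ 2 := by
  set J0 : ℝ := ∫ u in x..y, g u with hI
  have h0 : 0 ≤ ∫ u in x..y, (g u - J0) ^ 2 :=
    intervalIntegral.integral_nonneg h fun u _ => sq_nonneg _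
  have h2 : ∫ u in x..y, (g u - J0) ^ 2 = (∫ u in x..y, g u ^ 2) - 2 * J0 * J0 + J0 ^ 2 * (y - x) := by
    have e1 : (fun u => (g u - J0) ^ 2) = fun u => g u ^ 2 + (-(2 * J0)) * g u + J0 ^ 2 := by
      funext u
      ring
    rw [e1, A3_lin (f := fun u => g u ^ 2) (hg.pow 2) hg]
    ring
  rw [h2] at h0
  nlinarith [sq_nonneg J0, mul_nonneg (sq_nonneg J0) (sub_nonneg.2 h1)]

private theorem A3_fub {f : ℝ → ℝ → ℝ} (hf : Continuous (Function.uncurry f)) {x y p q : ℝ}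
    (h : x ≤ y) (h' : p ≤ q) :
    ∫ τ in p..q, ∫ u in x..y, f τ u = ∫ u in x..y, ∫ τ in p..q, f τ u := by
  simp only [intervalIntegral.integral_of_le h, intervalIntegral.integral_of_le h']
  refine integral_integral_swap ?_
  rw [Measure.prod_restrict]
  have h1 : IntegrableOn (Function.uncurry f) (Icc p q ×ˢ Icc x y) (volume.prod volume) :=
    hf.continuousOn.integrableOn_compact (isCompact_Icc.prod isCompact_Icc)
  exact h1.mono_set (Set.prod_mono Ioc_subset_Icc_self Ioc_subset_Icc_self)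

theorem net (hb : Ker b) (hl : Lev lev) {Λ c P : ℝ} (hΛ : 1 ≤ Λ) (hc : 1 ≤ c) (hcΛ : c ≤ Λ)
    (hP : 1 ≤ P) :
    1 / 2 * (1 / P * ∫ τ in P..2 * P, st lev (Ac b (⌊c⌋₊ : ℝ)) Λ τ ^ 2) -
        2 * (1 / P * ∫ τ in P..3 * P, st lev b Λ τ ^ 2) - 1 ≤
      1 / P * ∫ τ in P..2 * P, st lev (Ac b c) Λ τ ^ 2 := by
  have hΛ0 : 0 < Λ := by linarith
  have hP0 : 0 < P := by linarith
  have hn0 : (0 : ℝ) ≤ (⌊c⌋₊ : ℝ) := Nat.cast_nonneg _
  have hnc : (⌊c⌋₊ : ℝ) ≤ c := Nat.floor_le (by linarith)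
  have hcn : c - (⌊c⌋₊ : ℝ) ≤ 1 := by
    have := (Nat.lt_floor_add_one c).le
    linarith
  generalize (⌊c⌋₊ : ℝ) = n at hn0 hnc hcn ⊢
  have hF : Continuous fun τ => st lev (Ac b n) Λ τ := st_cont (Ac_amp hb n) hl hΛ0
  have hG : Continuous fun τ => st lev (Ac b c) Λ τ := st_cont (Ac_amp hb c) hl hΛ0
  have hg : Continuous fun τ => st lev b Λ τ := st_cont hb.amp hl hΛ0
  have hg2 : Continuous (Function.uncurry fun τ u : ℝ => st lev b Λ (τ + u / Λ) ^ 2) := by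
    have e1 : Continuous fun z : ℝ × ℝ => z.1 + z.2 / Λ := by fun_prop
    exact (hg.comp e1).pow 2
  have hgu : ∀ τ, Continuous fun u : ℝ => st lev b Λ (τ + u / Λ) := by
    intro τ
    have e1 : Continuous fun u : ℝ => τ + u / Λ := by fun_prop
    exact hg.comp e1
  set e : ℝ := (c ^ 2 - n ^ 2) / (4 * Real.pi * Λ ^ 2) with he
  have hpi := Real.pi_gt_three
  have he0 : 0 ≤ e := by
    rw [he]
    refine div_nonneg ?_ (by positivity)
    nlinarith
  have he1 : e ≤ 1 / 4 := by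
    rw [he, div_le_iff₀ (by positivity)]
    have e1 : c ^ 2 ≤ Λ ^ 2 := pow_le_pow_left₀ (by linarith) hcΛ 2
    have e2 : 0 ≤ Λ ^ 2 := sq_nonneg Λ
    nlinarith [mul_nonneg (sub_nonneg.2 hpi.le) e2, sq_nonneg n]
  -- the pointwise inequality
  have key : ∀ τ, 1 / 2 * st lev (Ac b n) Λ τ ^ 2 ≤ st lev (Ac b c) Λ τ ^ 2 +
      2 * (∫ u in n..c, st lev b Λ (τ + u / Λ) ^ 2) + 1 := by
    intro τ
    have h1 := st_Ac hb hl hΛ0 hn0 hnc τ
    rw [← he] at h1
    have h2 := A3_cs (hgu τ) hnc hcn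
    generalize (∫ u in n..c, st lev b Λ (τ + u / Λ)) = J0 at h1 h2
    have h3 : st lev (Ac b n) Λ τ = st lev (Ac b c) Λ τ - J0 - e := by linarith
    have h4 : e ^ 2 ≤ 1 / 4 := by nlinarith
    rw [h3]
    nlinarith [sq_nonneg (st lev (Ac b c) Λ τ + J0 + e), sq_nonneg (J0 - e)]
  -- the double integral
  have hI : ∫ τ in P..2 * P, ∫ u in n..c, st lev b Λ (τ + u / Λ) ^ 2 ≤
      ∫ τ in P..3 * P, st lev b Λ τ ^ 2 := by
    rw [A3_fub hg2 hnc (by linarith)]
    have h0 : 0 ≤ ∫ τ in P..3 * P, st lev b Λ τ ^ 2 :=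
      intervalIntegral.integral_nonneg (by linarith) fun u _ => sq_nonneg _
    have h1 : ∀ u ∈ Icc n c, (∫ τ in P..2 * P, st lev b Λ (τ + u / Λ) ^ 2) ≤
        ∫ τ in P..3 * P, st lev b Λ τ ^ 2 := by
      intro u hu
      rw [intervalIntegral.integral_comp_add_right (fun τ => st lev b Λ τ ^ 2) (u / Λ)]
      have h2 : 0 ≤ u / Λ := div_nonneg (hn0.trans hu.1) hΛ0.le
      have h3 : u / Λ ≤ 1 := (div_le_one hΛ0).2 (hu.2.trans hcΛ)
      exact intervalIntegral.integral_mono_interval (by linarith) (by linarith) (by linarith)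
        (Eventually.of_forall fun u => sq_nonneg _) ((hg.pow 2).intervalIntegrable _ _)
    have h2 : (∫ u in n..c, ∫ τ in P..2 * P, st lev b Λ (τ + u / Λ) ^ 2) ≤
        ∫ _u in n..c, ∫ τ in P..3 * P, st lev b Λ τ ^ 2 := by
      refine intervalIntegral.integral_mono_on hnc ?_ (continuous_const.intervalIntegrable _ _) h1
      have h3 : Continuous fun u : ℝ => ∫ τ in P..2 * P, st lev b Λ (τ + u / Λ) ^ 2 := by
        have e1 : Continuous (Function.uncurry fun u τ : ℝ => st lev b Λ (τ + u / Λ) ^ 2) := by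
          have e2 : Continuous fun z : ℝ × ℝ => z.2 + z.1 / Λ := by fun_prop
          exact (hg.comp e2).pow 2
        exact intervalIntegral.continuous_parametric_intervalIntegral_of_continuous' e1 _ _
      exact h3.intervalIntegrable _ _
    rw [intervalIntegral.integral_const, smul_eq_mul] at h2
    nlinarith [mul_le_of_le_one_left h0 hcn]
  have hJc : Continuous fun τ => ∫ u in n..c, st lev b Λ (τ + u / Λ) ^ 2 :=
    intervalIntegral.continuous_parametric_intervalIntegral_of_continuous' hg2 _ _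
  have hint : ∫ τ in P..2 * P, 1 / 2 * st lev (Ac b n) Λ τ ^ 2 ≤
      ∫ τ in P..2 * P, (st lev (Ac b c) Λ τ ^ 2 +
        2 * (∫ u in n..c, st lev b Λ (τ + u / Λ) ^ 2) + 1) := by
    refine intervalIntegral.integral_mono_on (by linarith)
      ((continuous_const.mul (hF.pow 2)).intervalIntegrable _ _)
      ((((hG.pow 2).add (continuous_const.mul hJc)).add continuous_const).intervalIntegrable _ _)
      fun τ _ => key τ
  rw [intervalIntegral.integral_const_mul, A3_lin (f := fun τ => st lev (Ac b c) Λ τ ^ 2) (hG.pow 2) hJc] at hint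
  generalize (∫ τ in P..2 * P, st lev (Ac b n) Λ τ ^ 2) = a1 at hint ⊢
  generalize (∫ τ in P..2 * P, st lev (Ac b c) Λ τ ^ 2) = a2 at hint ⊢
  generalize (∫ τ in P..2 * P, ∫ u in n..c, st lev b Λ (τ + u / Λ) ^ 2) = a3 at hint hI
  generalize (∫ τ in P..3 * P, st lev b Λ τ ^ 2) = a4 at hI ⊢
  have hfin : 1 / 2 * a1 ≤ a2 + 2 * a4 + P := by nlinarith
  have h5 : 1 / P * (1 / 2 * a1) ≤ 1 / P * (a2 + 2 * a4 + P) :=
    mul_le_mul_of_nonneg_left hfin (by positivity)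
  have h6 : 1 / P * P = 1 := by field_simp
  nlinarith

end N37
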