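import Pool.Agent.LibBE37N.A1
import Pool.Agent.LibB35.GL3
import Pool.Agent.LibSW73.R13
import Pool.Agent.LibSW73.R14
import Pool.Agent.LibSW73.R16

/-! ROW B1 : the diagonal second moments. MEDIUM.
PLAN. MODEL: `B35.DD_lim` (LibB35/GL3.lean), read its proof; the private lemmas `GL3_..` must be copied. `a = aR b (ind 1) n` (`amp_aR`), `L = Λ / n`, `sc (Ac b n) Λ = sc a L` (`Ac_sc`), `R = ρ * n`, `R * L = ρ * Λ`; `‖a s‖ ≤ ‖ftF (ind 1) s‖ * ‖b ..‖ ≤ A` with one `A` for all `n` (`‖ftF (ind 1) s‖ ≤ 1`,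
`b` bounded), so the constant `C1` of `GWin.amp_sum_le h hA` does not depend on `n`. As in `DD_lim`: `∑ q ∈ Cs μ (R * L), ‖mt μ (sc a L) q‖ ^ 2 = Vr G a R L =: V` and `‖DD Q .. 2 - gaussMom V 2‖ ≤ C (1 + √V) ^ 2 (C1 / L)` (`DD_gauss 2`, needs `C1 ≤ L`), `gaussMom V 2 = V`
(`Mes.gaussMom`: find the lemma or unfold). `(1 + √V) ^ 2 ≤ 2 + 2 V`; for `L ≥ 8 C C1 + C1 + ..` the error is at most `V / 4 + 1 / 4`. `vr_log1` (LibSW73/R16) with `ε = 1 / 100` and `WinRule G` (`win_of` (R14), `SR85Z.sumrule2` (R13), see `numVar_low1` in LibSW73/F5.lean):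
`V ≥ (2 / π ^ 2 - 1 / 100) log n ≥ (19 / 100) log n` (`π ^ 2 < 9.87`). So `DD ≥ 3 / 4 V - 1 / 4 ≥ (1 / 10) log n` for `n ≥ M0` large. `DD_up`: `B35.DD_lim` with `a = b`, `r = 2`, `ε = 1`. -/

open MeasureTheory Set Filter Topology
open scoped ContDiff unitInterval

namespace N37

variable [F37.Sq]

open FG33 SC35 GWin NV73 B35 BGS BR

variable {Γ : Type} [Group Γ] [MulAction Γ Pl] {D : Set Pl} {b : ℝ → ℂ}

private theorem B1_mt (hX : Surface Γ D) (hO : Ori Γ) {μ : Pl → Co} (hm : HM Γ μ) (a : ℝ → ℂ)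
    (L : ℝ) (p : GH.PG Γ) (n : ℕ) (o : Bool) :
    mt μ (GWin.sc a L) (p, n, o) = 1 / 2 * GWin.amp (GH.geo (BGM.tl μ) (GD.trg μ)) a L p n := by
  have h1 : wg μ (p, n, true) = BGM.tl μ (GH.rep p) / √(GD.trg μ (GH.rep p ^ (n + 1)) - 2) := by
    unfold wg B35.lp gel gpr
    rw [if_pos rfl]
  unfold B35.mt
  rw [wg_or hX hO hm, ln_or, h1]
  unfold ln B35.lp GWin.sc GWin.amp
  show ((BGM.tl μ (GH.rep p) / √(GD.trg μ (GH.rep p ^ (n + 1)) - 2) : ℝ) : ℂ) *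
    (((2 / L : ℝ) : ℂ) * a (((n : ℝ) + 1) * BGM.tl μ (GH.rep p) / L)) =
    1 / 2 * (((4 / L * (BGM.tl μ (GH.rep p) / √(GD.trg μ (GH.rep p ^ (n + 1)) - 2)) : ℝ) : ℂ) *
      a (((n : ℝ) + 1) * BGM.tl μ (GH.rep p) / L))
  push_cast
  ring

private theorem B1_norm (hX : Surface Γ D) (hO : Ori Γ) {μ : Pl → Co} (hm : HM Γ μ) (a : ℝ → ℂ)
    (L : ℝ) (p : GH.PG Γ) (n : ℕ) (o : Bool) :
    ‖mt μ (GWin.sc a L) (p, n, o)‖ = 1 / 2 * ‖GWin.amp (GH.geo (BGM.tl μ) (GD.trg μ)) a L p n‖ := by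
  rw [B1_mt hX hO hm, norm_mul]
  congr 1
  norm_num

open Classical in
private theorem B1_sub {G : GWin.Geo} {κ : ℝ} (h : GWin.Ok G κ) {t : ℝ} {p : G.P} {n : ℕ}
    (hq : ((n : ℝ) + 1) * G.len p ≤ t) : p ∈ GWin.ball G t ∧ n ∈ Finset.range (GWin.KK G t) := by
  have h1 := h.pos p
  have h2 : (0 : ℝ) ≤ n := Nat.cast_nonneg n
  constructor
  · rw [GWin.mem_ball h]
    nlinarith
  · rw [Finset.mem_range]
    have h3 := GWin.KK_spec h t p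
    have h4 : ((n : ℝ) + 1) * G.len p < ((GWin.KK G t : ℝ) + 1) * G.len p := hq.trans_lt h3
    have h5 := lt_of_mul_lt_mul_right h4 h1.le
    have h6 : (n : ℝ) < GWin.KK G t := by linarith
    exact_mod_cast h6

open Classical in
private theorem B1_sum {G : GWin.Geo} {κ : ℝ} (h : GWin.Ok G κ) {t : ℝ}
    {Q : Finset (G.P × ℕ × Bool)} (hQ : ∀ q, q ∈ Q ↔ ((q.2.1 : ℝ) + 1) * G.len q.1 ≤ t)
    (F : G.P → ℕ → ℝ) (hF : ∀ (p : G.P) (n : ℕ), t < ((n : ℝ) + 1) * G.len p → F p n = 0) :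
    ∑ q ∈ Q, F q.1 q.2.1 =
      ∑ p ∈ GWin.ball G t, ∑ n ∈ Finset.range (GWin.KK G t), 2 * F p n := by
  have h1 : Q ⊆ GWin.ball G t ×ˢ (Finset.range (GWin.KK G t) ×ˢ (Finset.univ : Finset Bool)) := by
    intro q hq
    have h2 := B1_sub h ((hQ q).1 hq)
    rw [Finset.mem_product, Finset.mem_product]
    exact ⟨h2.1, h2.2, Finset.mem_univ _⟩
  rw [Finset.sum_subset h1 fun q _ hq => hF _ _ (not_le.1 fun h2 => hq ((hQ q).2 h2)),
    Finset.sum_product]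
  refine Finset.sum_congr rfl fun p _ => ?_
  rw [Finset.sum_product]
  refine Finset.sum_congr rfl fun n _ => ?_
  show ∑ _o : Bool, F p n = _
  rw [Finset.sum_const, Finset.card_univ, Fintype.card_bool, nsmul_eq_mul]
  norm_num

open Classical in
private theorem B1_core (hX : Surface Γ D) (hO : Ori Γ) (m' : Mt Γ D) {A : ℝ} (hA0 : 0 ≤ A) :
    ∃ C C1 : ℝ, 0 ≤ C ∧ 0 < C1 ∧ ∀ (a : ℝ → ℂ) (R L : ℝ), (∀ s, ‖a s‖ ≤ A) →
      (∀ s, R ≤ s → a s = 0) → 0 < L → C1 ≤ L → ∀ Q : Finset (Cg Γ),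
      (∀ q : Cg Γ, ln m'.1.1 q ≤ R * L → q ∈ Q) →
      ‖DD Q (mt m'.1.1 (GWin.sc a L)) 2 -
        (GWin.Vr (GH.geo (BGM.tl m'.1.1) (GD.trg m'.1.1) (Γ := Γ)) a R L : ℂ)‖ ≤
        C * (1 + √(GWin.Vr (GH.geo (BGM.tl m'.1.1) (GD.trg m'.1.1) (Γ := Γ)) a R L)) ^ 2 *
          (C1 / L) := by
  classical
  obtain ⟨μ, hμ⟩ : ∃ μ : Pl → Co, μ = m'.1.1 := ⟨_, rfl⟩
  have hm : HM Γ μ := hμ ▸ hm_of_Mt m'
  rw [← hμ]
  obtain ⟨a', b', ha', -, hk⟩ := curv_bounds hX hm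
  have h := GH.ok_geo (GD.grpData hX hO hm ha' fun z => (hk z).2)
  obtain ⟨C, hC0, hC⟩ := DD_gauss 2
  obtain ⟨C1, hC1, h1⟩ := GWin.amp_sum_le h (a := fun _ => (A : ℂ)) (A := A) (fun s => by
    show ‖(A : ℂ)‖ ≤ A
    rw [Complex.norm_real, Real.norm_eq_abs, abs_of_nonneg hA0])
  refine ⟨C, C1, hC0, hC1, fun a R L hA haR hL0 hLC Q hQ => ?_⟩
  have hmem : ∀ q : Cg Γ, q ∈ Cs μ (R * L) ↔ ln μ q ≤ R * L := fun q => Cs_mem hX hO hm
  have hz : ∀ q : Cg Γ, R * L < ln μ q → mt μ (GWin.sc a L) q = 0 := by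
    intro q hq
    unfold B35.mt GWin.sc
    rw [haR (ln μ q / L) ((le_div_iff₀ hL0).2 hq.le), mul_zero, mul_zero]
  have hsub : Cs (Γ := Γ) μ (R * L) ⊆ Q := fun q hq => hQ q ((hmem q).1 hq)
  rw [DD_supp hsub (fun q _ hq => hz q (not_le.1 fun h2 => hq ((hmem q).2 h2))) 2]
  have hnm : ∀ (p : GH.PG Γ) (n : ℕ) (o : Bool), ‖mt μ (GWin.sc a L) (p, n, o)‖ =
      1 / 2 * ‖GWin.amp (GH.geo (BGM.tl μ) (GD.trg μ)) a L p n‖ := fun p n o =>
    B1_norm hX hO hm a L p n o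
  have hz' : ∀ (p : GH.PG Γ) (n : ℕ), R * L < ((n : ℝ) + 1) * BGM.tl μ (GH.rep p) →
      ‖GWin.amp (GH.geo (BGM.tl μ) (GD.trg μ)) a L p n‖ = 0 := by
    intro p n hn
    have h2 := hnm p n true
    rw [hz (p, n, true) hn, norm_zero] at h2
    linarith
  have hvar : ∑ q ∈ Cs (Γ := Γ) μ (R * L), ‖mt μ (GWin.sc a L) q‖ ^ 2 =
      GWin.Vr (GH.geo (BGM.tl μ) (GD.trg μ) (Γ := Γ)) a R L := by
    have h2 := B1_sum h (Q := Cs μ (R * L)) hmem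
      (fun p n => 1 / 4 * ‖GWin.amp (GH.geo (BGM.tl μ) (GD.trg μ)) a L p n‖ ^ 2)
      (fun p n hn => by
        show 1 / 4 * ‖GWin.amp (GH.geo (BGM.tl μ) (GD.trg μ)) a L p n‖ ^ 2 = 0
        rw [hz' p n hn]
        norm_num)
    have h3 : ∑ q ∈ Cs (Γ := Γ) μ (R * L), ‖mt μ (GWin.sc a L) q‖ ^ 2 = ∑ q ∈ Cs (Γ := Γ) μ (R * L),
        1 / 4 * ‖GWin.amp (GH.geo (BGM.tl μ) (GD.trg μ)) a L q.1 q.2.1‖ ^ 2 := by
      refine Finset.sum_congr rfl ?_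
      rintro ⟨p, n, o⟩ -
      rw [hnm]
      ring
    rw [h3]
    refine h2.trans ?_
    unfold GWin.Vr
    rw [Finset.mul_sum]
    refine Finset.sum_congr rfl fun p _ => ?_
    rw [Finset.mul_sum]
    refine Finset.sum_congr rfl fun n _ => ?_
    ring
  have hdom : ∀ (p : GH.PG Γ) (n : ℕ), ‖GWin.amp (GH.geo (BGM.tl μ) (GD.trg μ)) a L p n‖ ≤
      ‖GWin.amp (GH.geo (BGM.tl μ) (GD.trg μ)) (fun _ => (A : ℂ)) L p n‖ := by
    intro p n
    unfold GWin.amp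
    rw [norm_mul, norm_mul]
    refine mul_le_mul_of_nonneg_left ((hA _).trans (le_of_eq ?_)) (norm_nonneg _)
    show A = ‖(A : ℂ)‖
    rw [Complex.norm_real, Real.norm_eq_abs, abs_of_nonneg hA0]
  have hmain := hC (GH.PG Γ) (Cs μ (R * L)) (mt μ (GWin.sc a L)) (C1 / L)
    (fun p n => by rw [hmem, hmem, ln_or μ p n false])
    (fun p n => by
      rw [B1_mt hX hO hm, B1_mt hX hO hm])
    (by positivity) (by rwa [div_le_one hL0])
    (by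
      intro p
      refine le_trans (Finset.sum_le_sum_of_subset_of_nonneg
        (t := {p} ×ˢ (Finset.range (GWin.KK (GH.geo (BGM.tl μ) (GD.trg μ) (Γ := Γ)) (R * L)) ×ˢ
          (Finset.univ : Finset Bool))) ?_ fun _ _ _ => norm_nonneg _) ?_
      · intro q hq
        rw [Finset.mem_filter] at hq
        rw [Finset.mem_product, Finset.mem_product, Finset.mem_singleton]
        exact ⟨hq.2, (B1_sub h ((hmem q).1 hq.1)).2, Finset.mem_univ _⟩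
      · rw [Finset.sum_product, Finset.sum_singleton, Finset.sum_product]
        refine le_trans ?_ (h1 L p
          (GWin.KK (GH.geo (BGM.tl μ) (GD.trg μ) (Γ := Γ)) (R * L)) hL0)
        refine Finset.sum_le_sum fun n _ => ?_
        simp only [hnm]
        rw [Finset.sum_const, Finset.card_univ, Fintype.card_bool, nsmul_eq_mul]
        have := hdom p n
        push_cast
        linarith)
  rw [hvar] at hmain
  have hg : Mes.gaussMom (GWin.Vr (GH.geo (BGM.tl μ) (GD.trg μ) (Γ := Γ)) a R L) 2 =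
      GWin.Vr (GH.geo (BGM.tl μ) (GD.trg μ) (Γ := Γ)) a R L := by
    unfold Mes.gaussMom
    rw [if_pos (by decide)]
    norm_num
  rwa [hg] at hmain

private theorem B1_ft (s : ℝ) : ‖ftF (ind 1) s‖ ≤ 1 := by
  unfold ftF
  have e1 : (fun u : ℝ => ((ind 1 u : ℝ) : ℂ) * Complex.exp (-(Complex.I * (s * u : ℝ)))) =
      indicator (Ico (0 : ℝ) 1) (fun u : ℝ => Complex.exp (-(Complex.I * (s * u : ℝ)))) := by
    funext u
    unfold ind
    by_cases hu : u ∈ Ico (0 : ℝ) 1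
    · rw [indicator_of_mem hu, indicator_of_mem hu]
      simp only [Pi.one_apply, Complex.ofReal_one, one_mul]
    · rw [indicator_of_notMem hu, indicator_of_notMem hu]
      simp
  rw [e1, integral_indicator measurableSet_Ico, integral_Ico_eq_integral_Ioc,
    ← intervalIntegral.integral_of_le zero_le_one]
  refine (intervalIntegral.norm_integral_le_of_norm_le_const (C := 1) ?_).trans ?_
  · intro u _
    have e2 : -(Complex.I * ((s * u : ℝ) : ℂ)) = ((-(s * u) : ℝ) : ℂ) * Complex.I := by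
      push_cast
      ring
    rw [e2, Complex.norm_exp_ofReal_mul_I]
  · norm_num

private theorem B1_bR (hb : Ker b) {ρ : ℝ} (hρ : 1 ≤ ρ) (hρ' : ∀ s, ρ < |s| → b s = 0) :
    ∀ s, ρ ≤ s → b s = 0 := by
  intro s hs
  have h1 : Tendsto b (𝓝[>] s) (𝓝 (b s)) :=
    (hb.amp.smooth.continuous.tendsto s).mono_left nhdsWithin_le_nhds
  have h2 : Tendsto b (𝓝[>] s) (𝓝 0) := by
    refine tendsto_const_nhds.congr' ?_
    filter_upwards [self_mem_nhdsWithin] with t ht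
    have h3 : s < t := ht
    refine (hρ' t ?_).symm
    rw [abs_of_pos (by linarith)]
    linarith
  exact tendsto_nhds_unique h1 h2

theorem DD_low (hX : Surface Γ D) (hO : Ori Γ) (m' : Mt Γ D) (hb : Ker b) {ρ : ℝ} (hρ : 1 ≤ ρ)
    (hρ' : ∀ s, ρ < |s| → b s = 0) : ∃ M0 : ℝ, 1 ≤ M0 ∧ ∀ (n : ℕ) (Λ : ℝ), M0 ≤ n →
    M0 * n ≤ Λ → ∀ Q : Finset (Cg Γ), (∀ q : Cg Γ, ln m'.1.1 q ≤ ρ * Λ → q ∈ Q) →
      1 / 10 * Real.log n ≤ (DD Q (mt m'.1.1 (sc (Ac b n) Λ)) 2).re := by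
  obtain ⟨A, hA⟩ : ∃ A, ∀ s, ‖b s‖ ≤ A := by
    obtain ⟨x, hx⟩ :=
      hb.amp.smooth.continuous.norm.exists_forall_ge_of_hasCompactSupport hb.amp.supp.norm
    exact ⟨_, hx⟩
  have hA0 : 0 ≤ A := (norm_nonneg _).trans (hA 0)
  obtain ⟨C, C1, hC0, hC1, hcore⟩ := B1_core hX hO m' hA0
  have hm : HM Γ m'.1.1 := hm_of_Mt m'
  obtain ⟨a', b', ha', -, hk⟩ := curv_bounds hX hm
  have h := GH.ok_geo (GD.grpData hX hO hm ha' fun z => (hk z).2)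
  have hW : WinRule (GH.geo (BGM.tl m'.1.1) (GD.trg m'.1.1) (Γ := Γ)) :=
    win_of h (SR85Z.sumrule hX hO m') (SR85Z.sumrule2 hX hO m')
  obtain ⟨M1, hM1, hlow⟩ := vr_log1 h hW hb hρ (ε := 1 / 100) (by norm_num)
  have hbR := B1_bR hb hρ hρ'
  refine ⟨M1 + Real.exp 6 + C1 + 8 * C * C1, ?_, fun n Λ hn hΛ Q hQ => ?_⟩
  · have := Real.exp_pos 6
    have : 0 ≤ 8 * C * C1 := by positivity
    linarith
  have he6 := Real.exp_pos 6
  have hCC : 0 ≤ 8 * C * C1 := by positivity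
  obtain ⟨M0, hM0⟩ : ∃ M0, M0 = M1 + Real.exp 6 + C1 + 8 * C * C1 := ⟨_, rfl⟩
  rw [← hM0] at hn hΛ
  have hM00 : 0 < M0 := by linarith
  have hn0 : (0 : ℝ) < n := by linarith
  have hn1 : 1 ≤ n := by
    by_contra hcon
    have h0 : n = 0 := by omega
    rw [h0] at hn0
    simp at hn0
  have hΛ0 : 0 < Λ := lt_of_lt_of_le (by positivity) hΛ
  have hL : M0 ≤ Λ / n := by
    rw [le_div_iff₀ hn0]
    exact hΛ
  have hL0 : 0 < Λ / n := by positivity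
  rw [Ac_sc b hn1 hΛ0]
  obtain ⟨V, hV⟩ : ∃ V, V = GWin.Vr (GH.geo (BGM.tl m'.1.1) (GD.trg m'.1.1) (Γ := Γ))
    (aR b (ind 1) n) (ρ * n) (Λ / n) := ⟨_, rfl⟩
  have h1 := hlow n (Λ / n) (by linarith) (by linarith)
  have h2 := hcore (aR b (ind 1) n) (ρ * n) (Λ / n) (fun s => by
      unfold aR
      rw [norm_mul]
      calc ‖ftF (ind 1) s‖ * ‖b (s / n)‖ ≤ 1 * A :=
            mul_le_mul (B1_ft s) (hA _) (norm_nonneg _) zero_le_one
        _ = A := one_mul A)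
    (fun s hs => by
      unfold aR
      rw [hbR (s / n) (by rwa [le_div_iff₀ hn0]), mul_zero])
    hL0 (by linarith) Q (fun q hq => hQ q (by
      have e : ρ * n * (Λ / n) = ρ * Λ := by field_simp
      rwa [e] at hq))
  rw [← hV] at h1 h2
  have hV0 : 0 ≤ V := by
    rw [hV]
    unfold GWin.Vr
    have : 0 ≤ ∑ p ∈ ball (GH.geo (BGM.tl m'.1.1) (GD.trg m'.1.1) (Γ := Γ)) (ρ * n * (Λ / n)),
        ∑ k ∈ Finset.range (KK (GH.geo (BGM.tl m'.1.1) (GD.trg m'.1.1) (Γ := Γ))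
          (ρ * n * (Λ / n))),
        ‖amp (GH.geo (BGM.tl m'.1.1) (GD.trg m'.1.1) (Γ := Γ)) (aR b (ind 1) n) (Λ / n) p k‖ ^ 2 :=
      Finset.sum_nonneg fun p _ => Finset.sum_nonneg fun k _ => by positivity
    linarith
  have h3 : V - (DD Q (mt m'.1.1 (sc (aR b (ind 1) n) (Λ / n))) 2).re ≤
      C * (1 + √V) ^ 2 * (C1 / (Λ / n)) := by
    refine le_trans ?_ h2
    refine le_trans ?_ (Complex.abs_re_le_norm _)
    rw [Complex.sub_re, Complex.ofReal_re]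
    have h30 := neg_abs_le ((DD Q (mt m'.1.1 (sc (aR b (ind 1) n) (Λ / n))) 2).re - V)
    linarith
  have h4 : (1 + √V) ^ 2 ≤ 2 + 2 * V := by
    have := Real.sq_sqrt hV0
    nlinarith [sq_nonneg (1 - √V)]
  have h5 : C * (C1 / (Λ / n)) ≤ 1 / 8 := by
    rw [← mul_div_assoc, div_le_iff₀ hL0]
    linarith
  have h6 : C * (1 + √V) ^ 2 * (C1 / (Λ / n)) ≤ (2 + 2 * V) * (1 / 8) := by
    calc C * (1 + √V) ^ 2 * (C1 / (Λ / n)) = (1 + √V) ^ 2 * (C * (C1 / (Λ / n))) := by ring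
      _ ≤ (2 + 2 * V) * (1 / 8) := mul_le_mul h4 h5 (by positivity) (by linarith)
  have hlog : 6 ≤ Real.log n := by
    rw [← Real.log_exp 6]
    exact Real.log_le_log he6 (by linarith)
  have hpi : (19 : ℝ) / 100 ≤ 2 / Real.pi ^ 2 - 1 / 100 := by
    have hp := Real.pi_lt_d2
    have hp0 := Real.pi_pos
    have h7 : Real.pi ^ 2 ≤ 10 := by nlinarith
    have h8 : (1 : ℝ) / 5 ≤ 2 / Real.pi ^ 2 := by
      rw [div_le_div_iff₀ (by norm_num) (by positivity)]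
      linarith
    linarith
  have h7 : 19 / 100 * Real.log n ≤ V :=
    le_trans (mul_le_mul_of_nonneg_right hpi (by linarith)) h1
  linarith

theorem DD_up (hX : Surface Γ D) (hO : Ori Γ) (m' : Mt Γ D) (hb : Ker b) {ρ : ℝ} (hρ : 1 ≤ ρ)
    (hρ' : ∀ s, ρ < |s| → b s = 0) : ∃ C M0 : ℝ, 0 ≤ C ∧ ∀ Λ : ℝ, M0 ≤ Λ →
    ∀ Q : Finset (Cg Γ), (∀ q : Cg Γ, ln m'.1.1 q ≤ ρ * Λ → q ∈ Q) →
      (DD Q (mt m'.1.1 (sc b Λ)) 2).re ≤ C := by
  obtain ⟨M0, hM0⟩ := DD_lim hX hO m' hb.amp (R := ρ) (by linarith) hρ' 2 (ε := 1) one_pos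
  refine ⟨|Mes.gaussMom (GWin.vg b) 2| + 1, M0, by positivity, fun Λ hΛ Q hQ => ?_⟩
  have h1 := hM0 Λ hΛ Q hQ
  have h2 := (Complex.abs_re_le_norm _).trans h1
  rw [Complex.sub_re, Complex.ofReal_re] at h2
  have h3 := (abs_le.1 h2).2
  have h4 := le_abs_self (Mes.gaussMom (GWin.vg b) 2)
  linarith

end N37
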