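import Pool.Agent.LibBE37N.A2
import Pool.Agent.LibBE36T.T14
import Pool.Agent.LibGWa.U4
import Pool.Agent.LibGD33.Asm2
import Pool.Agent.LibNV73.Q1
import Pool.Agent.LibNV73.Q5

/-! ROW C1 : the statistics and the spectral side of the trace formula. SHORT/MEDIUM.
PLAN. `B36.Qs m' b τ` (LibBE36T/T14) with `BR.hh (osc b τ)` is `∑' n, GWin.hh b τ (lev n) - 1 / (2 π) ∫ y in Ioi 0, GWin.hh b τ y * y` (`gg b τ = osc b τ`: commute the product; see the proof of `GD` / `BF73.red_Sg` (LibBF73/F1) how `Trace` is converted). The proof of `red_unif` (LibNV73/Q2.lean): `hh_sum` (the sum is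
`∑ tf a (L (lev n - τ)) + ∑ tf a (L (-lev n - τ))` up to the factor), `weyl_unif B`, `refl_unif hl B` (LibNV73/Q1) for `AmpB a B R`. For `Ac b n`: `a = aR b (ind 1) n`, `L = Λ / n ≥ 1`, `sc (Ac b n) Λ = sc a L` (`Ac_sc`), `st lev (Ac b n) Λ = st lev a L` (`st_aR`, `L * n = Λ`), `ampB_ind` (LibNV73/Q5) with `c = 1`.
For `b` itself: `AmpB b B ρ` (derivatives bounded, compact support, `hb.dec 4`) for some `B`. -/

open MeasureTheory Set Filter Topology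
open scoped ContDiff unitInterval

namespace N37

variable [F37.Sq]

open FG33 SC35 GWin NV73 BGS

variable {Γ : Type} [Group Γ] [MulAction Γ Pl] {D : Set Pl} {b : ℝ → ℂ}

/-- The spectral side in terms of `GWin.hh`. -/
private theorem C1_Qs (m' : Mt Γ D) (c : ℝ → ℂ) (τ : ℝ) : B36.Qs m' c τ =
    ∑' j, GWin.hh c τ (FG33.lam m' j) -
      1 / (2 * Real.pi) * ∫ y in Ioi (0 : ℝ), GWin.hh c τ y * y := by
  unfold B36.Qs
  simp only [← GD.hh_osc]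

private theorem C1_core (hX : Surface Γ D) (m' : Mt Γ D) {a : ℝ → ℂ} (ha : IsAmp a)
    {L τ C2 C3 : ℝ} (hL : 1 ≤ L) (hτ : 1 ≤ τ) (hC2 : 0 ≤ C2) (hC3 : 0 ≤ C3)
    (h6 : |1 / (2 * Real.pi) * (∫ y in Ioi (0 : ℝ), GWin.hh (sc a L) τ y * y) -
      τ / (2 * Real.pi * L) * ∫ y, tf a y| ≤ C2 / L)
    (h7 : |∑' n, tf a (L * (-FG33.lam m' n - τ))| ≤ C3 / L) :
    |st (FG33.lam m') a L τ - B36.Qs m' (sc a L) τ| ≤ C2 + C3 := by
  have hl := GD.lev hX m'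
  rw [C1_Qs, hh_sum ha hl hL hτ]
  obtain ⟨S1, hS1⟩ : ∃ S1, S1 = ∑' n, tf a (L * (FG33.lam m' n - τ)) := ⟨_, rfl⟩
  obtain ⟨S2, hS2⟩ : ∃ S2, S2 = ∑' n, tf a (L * (-FG33.lam m' n - τ)) := ⟨_, rfl⟩
  obtain ⟨W, hW⟩ : ∃ W, W = 1 / (2 * Real.pi) *
      (∫ y in Ioi (0 : ℝ), GWin.hh (sc a L) τ y * y) := ⟨_, rfl⟩
  obtain ⟨V, hV⟩ : ∃ V, V = τ / (2 * Real.pi * L) * ∫ y, tf a y := ⟨_, rfl⟩
  rw [← hW, ← hV] at h6
  rw [← hS2] at h7
  have e1 : st (FG33.lam m') a L τ - (∑' n, tf a (L * (FG33.lam m' n - τ)) +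
      ∑' n, tf a (L * (-FG33.lam m' n - τ)) - 1 / (2 * Real.pi) *
        ∫ y in Ioi (0 : ℝ), GWin.hh (sc a L) τ y * y) = (W - V) - S2 := by
    unfold st
    rw [← hS1, ← hS2, ← hV, ← hW]
    ring
  rw [e1]
  have h8 : C2 / L ≤ C2 := div_le_self hC2 hL
  have h9 : C3 / L ≤ C3 := div_le_self hC3 hL
  have h10 := abs_sub (W - V) S2
  linarith

theorem st_Qs (hX : Surface Γ D) (m' : Mt Γ D) (hb : Ker b) : ∃ C : ℝ, 0 ≤ C ∧
    ∀ Λ τ : ℝ, 1 ≤ Λ → 1 ≤ τ →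
      |st (FG33.lam m') b Λ τ - B36.Qs m' (sc b Λ) τ| ≤ C ∧
      ∀ n : ℕ, 1 ≤ n → (n : ℝ) ≤ Λ →
        |st (FG33.lam m') (Ac b n) Λ τ - B36.Qs m' (sc (Ac b n) Λ) τ| ≤ C := by
  have hl := GD.lev hX m'
  obtain ⟨C2, hC2, h2⟩ := GWin.weyl_term hb.amp
  obtain ⟨C3, hC3, h3⟩ := GWin.refl_sum hb.amp hl
  obtain ⟨B, ρ, hρ, hB⟩ := ampB_ind hb
  obtain ⟨C4, hC4, h4⟩ := weyl_unif B
  obtain ⟨C5, hC5, h5⟩ := refl_unif hl B
  have hC2' : 0 ≤ C2 := by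
    have := h2 1 1 le_rfl le_rfl
    rw [div_one] at this
    exact (abs_nonneg _).trans this
  have hC3' : 0 ≤ C3 := by
    have := (h3 1 1 le_rfl le_rfl).2
    rw [div_one] at this
    exact (abs_nonneg _).trans this
  refine ⟨C2 + C3 + (C4 + C5), by positivity, fun Λ τ hΛ hτ => ⟨?_, fun n hn hnΛ => ?_⟩⟩
  · have := C1_core hX m' hb.amp hΛ hτ hC2' hC3' (h2 Λ τ hΛ hτ) (h3 Λ τ hΛ hτ).2
    linarith
  · have hn' : (1 : ℝ) ≤ n := by exact_mod_cast hn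
    have hn0 : (0 : ℝ) < n := by linarith
    have hΛ0 : 0 < Λ := by linarith
    have hL : 1 ≤ Λ / n := by rwa [one_le_div hn0]
    have hA := hB 1 n le_rfl (by norm_num) hn'
    have e1 := st_aR hb (FG33.lam m') hn0 (div_pos hΛ0 hn0) τ
    rw [div_mul_cancel₀ _ hn0.ne'] at e1
    rw [Ac_sc b hn hΛ0, ← e1]
    have := C1_core hX m' hA.amp hL hτ hC4 hC5 (h4 _ _ hA _ τ hL hτ) (h5 _ _ hA _ τ hL hτ)
    linarith

end N37
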