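import Pool.Agent.LibNV73.Fdefs
import Pool.Agent.LibBE37F.N1c
import Pool.Agent.LibFB23.R18

/-! The number variance in terms of `T`. -/

open MeasureTheory Set Filter Topology
open scoped ContDiff unitInterval

namespace N37

variable [F37.Sq]

open FG33 BGS F37

variable {Γ : Type} [Group Γ] [MulAction Γ Pl] {D : Set Pl}

theorem g_tendsto : Tendsto (Sq.g : ℕ → ℝ) atTop atTop := by
  refine tendsto_atTop.2 fun A => ?_
  filter_upwards [Sq.big (2 * |A|)] with k h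
  have h1 : Real.log 2 ≤ Real.log ((k : ℝ) + 2) :=
    Real.log_le_log (by norm_num) (by have : (0 : ℝ) ≤ k := Nat.cast_nonneg k; linarith)
  have h2 := Real.log_two_gt_d9
  have h3 : |A| * 1 ≤ |A| * (2 * Real.log ((k : ℝ) + 2)) :=
    mul_le_mul_of_nonneg_left (by linarith) (abs_nonneg A)
  linarith [le_abs_self A]

theorem sub_tendsto (n : ℕ) : Tendsto (fun T : ℝ => FB23.dk T - n) atTop atTop :=
  (tendsto_sub_atTop_nat n).comp FB23.dk_tendsto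

theorem Lm_log (κ1 : ℝ) (k : ℕ) : Real.log (Lm κ1 k) = κ1 * Real.log ((bk k : ℝ) + 1) := by
  unfold Lm
  exact Real.log_rpow (by positivity) κ1

theorem g_log (k : ℕ) : Sq.g k ≤ Real.log ((bk k : ℝ) + 1) := by
  rw [Real.le_log_iff_exp_le (by positivity)]
  have h : Real.exp (Sq.g k) ≤ (⌈Real.exp (Sq.g k)⌉₊ : ℝ) := Nat.le_ceil _
  have hk : (0 : ℝ) ≤ k := Nat.cast_nonneg k
  unfold bk
  push_cast
  linarith

theorem in_T (m' : Mt Γ D) {κ1 ρ : ℝ} (hκ1 : 0 < κ1) (hρ : 1 ≤ ρ) {M1 C1 : ℝ} (hM1 : 1 ≤ M1)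
    (hC1 : 0 ≤ C1)
    (h : ∀ᶠ k : ℕ in atTop, ∀ T : ℝ, 4 * 2 ^ k ≤ T → T ≤ 8 * 2 ^ k →
      ∀ L : ℝ, M1 ≤ L → M1 * L ≤ Lm κ1 k / ρ →
        1 / 3200 * Real.log (Lm κ1 k / ρ / L) - C1 ≤ EM73.numVar m' T (1 / L)) :
    ∃ c L₀ : ℝ, 0 < c ∧ 1 ≤ L₀ ∧ ∀ᶠ T : ℝ in atTop, ∀ L : ℝ, L₀ ≤ L →
      L ≤ Real.exp (c * Sq.g (FB23.dk T - 2)) →
        c * Sq.g (FB23.dk T - 2) ≤ EM73.numVar m' T (1 / L) := by
  refine ⟨κ1 / 12800, M1, by positivity, hM1, ?_⟩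
  have hρ0 : 0 < ρ := by linarith
  have hM0 : 0 < M1 := by linarith
  have h1 : ∀ᶠ k : ℕ in atTop, Real.log M1 + Real.log ρ ≤ κ1 / 4 * Sq.g k ∧
      Real.log ρ / 3200 + C1 ≤ κ1 / 12800 * Sq.g k := by
    filter_upwards [g_tendsto.eventually_ge_atTop ((Real.log M1 + Real.log ρ) / (κ1 / 4)),
      g_tendsto.eventually_ge_atTop ((Real.log ρ / 3200 + C1) / (κ1 / 12800))] with k h2 h3
    rw [div_le_iff₀ (by positivity)] at h2 h3
    constructor <;> linarith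
  filter_upwards [(sub_tendsto 2).eventually h, (sub_tendsto 2).eventually h1,
    FB23.dk_tendsto.eventually_ge_atTop 2, eventually_ge_atTop (1 : ℝ)] with T h2 h3 h4 h5 L hL hL2
  obtain ⟨k, hk⟩ : ∃ k : ℕ, k = FB23.dk T - 2 := ⟨_, rfl⟩
  rw [← hk] at h2 h3 hL2 ⊢
  have hdk : FB23.dk T = k + 2 := by omega
  obtain ⟨h6, h7⟩ := h3
  have hL0 : 0 < L := by linarith
  have e1 : 4 * 2 ^ k ≤ T := by
    have := FB23.dk_le h5
    rw [hdk, pow_add] at this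
    linarith
  have e2 : T ≤ 8 * 2 ^ k := by
    have := (FB23.dk_lt h5).le
    rw [hdk, pow_add] at this
    linarith
  have hg0 : 0 ≤ Sq.g k := Sq.nonneg k
  have hlL : Real.log L ≤ κ1 / 12800 * Sq.g k := by
    rw [Real.log_le_iff_le_exp hL0]
    exact hL2
  have hLm : 0 < Lm κ1 k := Real.rpow_pos_of_pos (by positivity) _
  have hlog : κ1 * Sq.g k ≤ Real.log (Lm κ1 k) := by
    rw [Lm_log]
    exact mul_le_mul_of_nonneg_left (g_log k) hκ1.le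
  have e3 : M1 * L ≤ Lm κ1 k / ρ := by
    rw [le_div_iff₀ hρ0]
    rw [← Real.log_le_log_iff (by positivity) hLm, Real.log_mul (by positivity) hρ0.ne',
      Real.log_mul hM0.ne' hL0.ne']
    have : κ1 / 12800 * Sq.g k ≤ κ1 / 4 * Sq.g k :=
      mul_le_mul_of_nonneg_right (by linarith) hg0
    have : 0 ≤ κ1 * Sq.g k := by positivity
    linarith
  have h8 := h2 T e1 e2 L hL e3
  have e4 : Real.log (Lm κ1 k / ρ / L) = Real.log (Lm κ1 k) - Real.log ρ - Real.log L := by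
    rw [Real.log_div (by positivity) hL0.ne', Real.log_div hLm.ne' hρ0.ne']
  rw [e4] at h8
  have : 0 ≤ κ1 * Sq.g k := by positivity
  linarith

end N37
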