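import Pool.Agent.LibBE37N.C1
import Pool.Agent.LibBE37F.FA5
import Pool.Agent.LibBE37F.MY
import Pool.Agent.LibBE37Z.WE
import Pool.Agent.LibGD33.Asm2

/-! ROW C2 : the second moments of the statistics and `Mom`. MEDIUM.
PLAN. `Mom .. 2 u v k ξ` is (curvature of `Y .. ξ` negative: `block_neg` at `η = ξ`, `mix n ξ ξ = ξ`, for `ξ ∈ Bs`) the mean over `[u 2^k, v 2^k]` of `Sb .. τ ξ ^ 2`. `|st - Qs| ≤ C` (`st_Qs`), `|Qs - Sb| ≤ 1` (`W37.Tra`, for `2^k / 2 ≤ τ ≤ 5 2^k`, amplitudes `Am M (Lm κ1 k)`), so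
`Sb ^ 2 ≤ 2 st ^ 2 + 2 (C + 1) ^ 2` and `st ^ 2 ≤ 2 Sb ^ 2 + 2 (C + 1) ^ 2` on the window; integrate: `st` is continuous (`st_cont`, LibGWa), `Sb` is measurable in `τ` (`meas_Sb` composed with `τ ↦ (ξ, τ)`, as `F6_meas` in LibBF73/F6.lean) and bounded there. `Lm κ1 k / ρ ≥ 1` for large `k` (`W37.WE_Lm`); `ρ * (Lm κ1 k / ρ) = Lm κ1 k`. -/

open MeasureTheory Set Filter Topology
open scoped ContDiff unitInterval

namespace N37

variable [F37.Sq]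

open FG33 SC35 GWin NV73 BGS BR F37
open B35 (Dt)

variable {Γ : Type} [Group Γ] [MulAction Γ Pl] {D : Set Pl} {b : ℝ → ℂ}

private theorem C2_int {f g : ℝ → ℝ} {A B ε : ℝ} (hAB : A < B) (hf : Continuous f)
    (hg : Measurable g) (h : ∀ τ ∈ Icc A B, |f τ - g τ| ≤ ε) (n : ℕ) :
    IntervalIntegrable (fun τ => g τ ^ n) volume A B := by
  obtain ⟨C, hC⟩ := isCompact_Icc.exists_bound_of_continuousOn (hf.continuousOn (s := Icc A B))
  rw [intervalIntegrable_iff_integrableOn_Ioc_of_le hAB.le]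
  refine Measure.integrableOn_of_bounded (M := (C + ε) ^ n) ?_
    (hg.pow_const n).aestronglyMeasurable ?_
  · simp
  · refine (ae_restrict_iff' measurableSet_Ioc).mpr (Eventually.of_forall fun τ hτ => ?_)
    have h1 := h τ ⟨hτ.1.le, hτ.2⟩
    have h2 := hC τ ⟨hτ.1.le, hτ.2⟩
    rw [norm_pow]
    refine pow_le_pow_left₀ (norm_nonneg _) ?_ n
    rw [Real.norm_eq_abs] at h2 ⊢
    have h3 := abs_sub_abs_le_abs_sub (g τ) (f τ)
    rw [abs_sub_comm] at h3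
    linarith

/-- The means of the squares of two functions with a bounded difference. -/
private theorem C2_sq {f g : ℝ → ℝ} {A B c : ℝ} (hAB : A < B) (hf : Continuous f)
    (hg : Measurable g) (h : ∀ τ ∈ Icc A B, |f τ - g τ| ≤ c) :
    (∫ τ in A..B, f τ ^ 2) ≤ 2 * (∫ τ in A..B, g τ ^ 2) + 2 * c ^ 2 * (B - A) ∧
    (∫ τ in A..B, g τ ^ 2) ≤ 2 * (∫ τ in A..B, f τ ^ 2) + 2 * c ^ 2 * (B - A) := by
  have hig := C2_int hAB hf hg h 2
  have hif : IntervalIntegrable (fun τ => f τ ^ 2) volume A B :=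
    (hf.pow 2).intervalIntegrable _ _
  have hc : ∀ τ ∈ Icc A B, (f τ - g τ) ^ 2 ≤ c ^ 2 := fun τ hτ => by
    have h1 := h τ hτ
    rw [← sq_abs]
    exact pow_le_pow_left₀ (abs_nonneg _) h1 2
  constructor
  · calc (∫ τ in A..B, f τ ^ 2) ≤ ∫ τ in A..B, (2 * g τ ^ 2 + 2 * c ^ 2) := by
          refine intervalIntegral.integral_mono_on hAB.le hif
            ((hig.const_mul 2).add intervalIntegrable_const) fun τ hτ => ?_
          have := hc τ hτ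
          nlinarith [sq_nonneg (f τ - 2 * g τ)]
      _ = _ := by
          rw [intervalIntegral.integral_add (hig.const_mul 2) intervalIntegrable_const,
            intervalIntegral.integral_const_mul, intervalIntegral.integral_const, smul_eq_mul]
          ring
  · calc (∫ τ in A..B, g τ ^ 2) ≤ ∫ τ in A..B, (2 * f τ ^ 2 + 2 * c ^ 2) := by
          refine intervalIntegral.integral_mono_on hAB.le hig
            ((hif.const_mul 2).add intervalIntegrable_const) fun τ hτ => ?_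
          have := hc τ hτ
          nlinarith [sq_nonneg (g τ - 2 * f τ)]
      _ = _ := by
          rw [intervalIntegral.integral_add (hif.const_mul 2) intervalIntegrable_const,
            intervalIntegral.integral_const_mul, intervalIntegral.integral_const, smul_eq_mul]
          ring

private theorem C2_meas {P : Dt} (hP : F37.Ok Γ D P) {p : Pr} (hp : p.Ok) {κ : ℝ} (hκ : 0 ≤ κ)
    {M : ℕ → ℝ} {k : ℕ} {a : ℝ → ℂ} (ha : Am M (Lm κ k) a) {ξ : Dir → I}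
    (hξ : ∀ z, curv (Y P p Γ D k ξ) z < 0) :
    Measurable fun τ : ℝ => Sb P p Γ D κ k a τ ξ := by
  have h0 := meas_Sb hP hp hκ k ha
  have h00 : Measurable fun τ : ℝ =>
      ((⟨ξ, hξ⟩, τ) : {ξ : Dir → I // ∀ z, curv (Y P p Γ D k ξ) z < 0} × ℝ) :=
    measurable_const.prodMk measurable_id
  have h1 := h0.comp h00
  simp only [Function.comp_def] at h1
  exact h1

theorem mom_st {P : Dt} (hP : F37.Ok Γ D P) {p : Pr} (hp : p.Ok) {κ κ1 : ℝ} (hκ : 0 < κ)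
    (hκ1 : 0 < κ1) (hb : Ker b) {ρ : ℝ} (hρ : 1 ≤ ρ) {M : ℕ → ℝ}
    (hM : ∀ Λ : ℝ, 1 ≤ Λ → Am M (ρ * Λ) (sc b Λ) ∧
      ∀ n : ℕ, (n : ℝ) ≤ Λ → Am M (ρ * Λ) (sc (Ac b n) Λ))
    {ξ : Dir → I} (m' : Mt Γ D) (hξ : ∀ᶠ k : ℕ in atTop, ξ ∈ Bs P p Γ D κ k)
    (hT : W37.Tra D P p κ1 ξ m') : ∃ C : ℝ, 0 ≤ C ∧ ∀ᶠ k : ℕ in atTop,
      (1 / 2 ^ k * ∫ τ in (2 : ℝ) ^ k..3 * 2 ^ k, st (FG33.lam m') b (Lm κ1 k / ρ) τ ^ 2) ≤
        4 * Mom P p Γ D κ1 (sc b (Lm κ1 k / ρ)) 2 1 3 k ξ + C ∧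
      ∀ n : ℕ, 1 ≤ n → (n : ℝ) ≤ Lm κ1 k / ρ →
        1 / 2 * Mom P p Γ D κ1 (sc (Ac b n) (Lm κ1 k / ρ)) 2 1 2 k ξ - C ≤
          1 / 2 ^ k * ∫ τ in (2 : ℝ) ^ k..2 * 2 ^ k,
            st (FG33.lam m') (Ac b n) (Lm κ1 k / ρ) τ ^ 2 := by
  have hX : Surface Γ D := hP.cx.hX
  have hl : Lev (FG33.lam m') := GD.lev hX m'
  obtain ⟨C, hC, hst⟩ := st_Qs hX m' hb
  obtain ⟨k0, hk0⟩ := block_neg hP hκ
  obtain ⟨k1, hk1⟩ := hT M
  refine ⟨4 * (C + 1) ^ 2, by positivity, ?_⟩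
  have hρ0 : 0 < ρ := by linarith
  filter_upwards [hξ, eventually_ge_atTop k0, eventually_ge_atTop k1,
    (W37.WE_Lm hκ1).2.1.eventually_ge_atTop ρ] with k e1 e2 e3 e4
  obtain ⟨Λ, hΛ⟩ : ∃ Λ, Λ = Lm κ1 k / ρ := ⟨_, rfl⟩
  rw [← hΛ]
  have hΛ1 : 1 ≤ Λ := by
    rw [hΛ, le_div_iff₀ hρ0]
    linarith
  have hΛ0 : 0 < Λ := by linarith
  have hρΛ : ρ * Λ = Lm κ1 k := by
    rw [hΛ]
    field_simp
  obtain ⟨hMb, hMn⟩ := hM Λ hΛ1
  rw [hρΛ] at hMb hMn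
  have hmix : B35.mix (bk k) ξ ξ = ξ := by
    funext d
    simp [B35.mix]
  have hneg : ∀ z, curv (Y P p Γ D k ξ) z < 0 := fun z => by
    have h1 := hk0 p hp k e2 ξ e1 ξ z
    rw [hmix] at h1
    have h2 : 0 < (κ / 2) ^ 2 := by positivity
    linarith
  obtain ⟨Q, hQ⟩ : ∃ Q : ℝ, Q = 2 ^ k := ⟨_, rfl⟩
  have hQ1 : 1 ≤ Q := by
    rw [hQ]
    exact one_le_pow₀ (by norm_num)
  have hQ0 : 0 < Q := by linarith
  have hcl : ∀ a : ℝ → ℂ, Am M (Lm κ1 k) (sc a Λ) →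
      (∀ τ : ℝ, 1 ≤ τ → |st (FG33.lam m') a Λ τ - B36.Qs m' (sc a Λ) τ| ≤ C) →
      ∀ τ : ℝ, Q ≤ τ → τ ≤ 3 * Q →
        |st (FG33.lam m') a Λ τ - Sb P p Γ D κ1 k (sc a Λ) τ ξ| ≤ C + 1 := by
    intro a ha hs τ h1 h2
    have h3 := hk1 k e3 (sc a Λ) ha τ (by rw [← hQ]; linarith) (by rw [← hQ]; linarith)
    have h4 := hs τ (by linarith)
    exact (abs_sub_le _ (B36.Qs m' (sc a Λ) τ) _).trans (add_le_add h4 h3)
  constructor
  · have h1 := (C2_sq (A := Q) (B := 3 * Q) (c := C + 1) (by linarith)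
      (st_cont hb.amp hl hΛ0) (C2_meas hP hp hκ1.le hMb hneg)
      fun τ hτ => hcl b hMb (fun τ hτ => (hst Λ τ hΛ1 hτ).1) τ hτ.1 hτ.2).1
    rw [Mom, if_pos hneg, ← hQ, one_mul]
    obtain ⟨W, hW⟩ : ∃ W, W = ∫ τ in Q..3 * Q, Sb P p Γ D κ1 k (sc b Λ) τ ξ ^ 2 := ⟨_, rfl⟩
    rw [← hW] at h1 ⊢
    calc 1 / Q * ∫ τ in Q..3 * Q, st (FG33.lam m') b Λ τ ^ 2
        ≤ 1 / Q * (2 * W + 2 * (C + 1) ^ 2 * (3 * Q - Q)) :=
          mul_le_mul_of_nonneg_left h1 (by positivity)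
      _ = _ := by
          field_simp
          ring
  · intro n hn1 hn2
    have hn0 : (0 : ℝ) < n := by exact_mod_cast hn1
    have h1 := (C2_sq (A := Q) (B := 2 * Q) (c := C + 1) (by linarith)
      (st_cont (amp_aR hb rd_indc one_pos) hl hΛ0)
      (C2_meas hP hp hκ1.le (hMn n hn2) hneg)
      fun τ hτ => hcl (Ac b n) (hMn n hn2)
        (fun τ hτ => (hst Λ τ hΛ1 hτ).2 n hn1 hn2) τ hτ.1 (by linarith [hτ.2])).2
    rw [Mom, if_pos hneg, ← hQ, one_mul]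
    obtain ⟨W, hW⟩ : ∃ W, W = ∫ τ in Q..2 * Q, Sb P p Γ D κ1 k (sc (Ac b n) Λ) τ ξ ^ 2 :=
      ⟨_, rfl⟩
    rw [← hW] at h1 ⊢
    obtain ⟨V, hV⟩ : ∃ V, V = ∫ τ in Q..2 * Q, st (FG33.lam m') (Ac b n) Λ τ ^ 2 := ⟨_, rfl⟩
    have hV' : V = ∫ τ in Q..2 * Q, st (FG33.lam m') (aR b (ind n) 1) Λ τ ^ 2 := hV
    rw [← hV'] at h1
    rw [← hV]
    have h2 : 1 / 2 * (1 / ((2 - 1) * Q) * W) ≤ 1 / 2 * (1 / ((2 - 1) * Q) *
        (2 * V + 2 * (C + 1) ^ 2 * (2 * Q - Q))) := by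
      have h3 : 0 ≤ 1 / ((2 - 1) * Q) := by
        have : (2 - 1) * Q = Q := by ring
        rw [this]
        positivity
      exact mul_le_mul_of_nonneg_left (mul_le_mul_of_nonneg_left h1 h3) (by norm_num)
    have h4 : 1 / 2 * (1 / ((2 - 1) * Q) * (2 * V + 2 * (C + 1) ^ 2 * (2 * Q - Q))) =
        1 / Q * V + (C + 1) ^ 2 := by
      have : (2 - 1) * Q = Q := by ring
      rw [this]
      field_simp
      ring
    have h5 : 0 ≤ (C + 1) ^ 2 := sq_nonneg _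
    linarith

end N37
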