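import Pool.Agent.LibBE37N.Defs
import Pool.Agent.LibBE37F.GL4

/-! ROW D1 (helper33): the mean of the moments over a block, uniformly in the amplitude. -/

open MeasureTheory Set Filter Topology
open scoped ContDiff unitInterval

namespace N37

variable [F37.Sq]

open BGS BR F37
open B35 (Dt Cg Cs ln mt DD DD_zero mix)

variable {Γ : Type} [Group Γ] [MulAction Γ Pl] {D : Set Pl} {P : Dt} {κ : ℝ} {ν : ℕ → Measure I}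

private theorem D1_two {c : ℝ} (hc : 0 < c) : Tendsto (fun k : ℕ => ((2 : ℝ) ^ k) ^ (-c)) atTop
    (𝓝 0) := by
  have h1 : Tendsto (fun k : ℕ => (2 : ℝ) ^ k) atTop atTop :=
    tendsto_pow_atTop_atTop_of_one_lt (by norm_num)
  exact (tendsto_rpow_neg_atTop hc).comp h1

theorem mean_net (hP : Ok Γ D P) (hν : Law ν) (hκ : 0 < κ) {u v : ℝ} (hu : 0 < u) (huv : u < v)
    (r : ℕ) : ∃ δ0 : ℝ, 0 < δ0 ∧ ∀ p : Pr, p.Ok → p.δ ≤ δ0 →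
    ∃ κ0 : ℝ, 0 < κ0 ∧ ∀ κ1 : ℝ, 0 < κ1 → κ1 ≤ κ0 → ∀ (M : ℕ → ℝ) (ξ : Dir → I),
      (∀ z, curv (P.X Γ D ξ) z < 0) → ∀ ε : ℝ, 0 < ε → ∃ k0 : ℕ, ∀ k ≥ k0,
      ξ ∈ Bs P p Γ D κ k → ∀ a : ℝ → ℂ, Am M (Lm κ1 k) a →
        |(∫ η, Mom P p Γ D κ1 a r u v k (mix (bk k) ξ η) ∂Pm ν) -
          (DD (Cs (Γ := Γ) (Y0 P p Γ D k ξ) (Lm (2 * κ1) k)) (mt (P.X Γ D ξ) a) r).re| ≤ ε := by
  obtain ⟨δ0, hδ0, hblock⟩ := block (Γ := Γ) (D := D) (P := P) hP hν hκ hu huv r 0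
  refine ⟨δ0, hδ0, fun p hp hpδ => ?_⟩
  obtain ⟨κ0, c1, hκ0, hc1, hblock⟩ := hblock p hp hpδ
  refine ⟨κ0, hκ0, fun κ1 hκ1 hκ10 M ξ hneg ε hε => ?_⟩
  obtain ⟨k2, hB⟩ := hblock κ1 hκ1 hκ10 M
  obtain ⟨k3, hC⟩ := DD_close hP hκ hp hneg hκ1 M r
  have t1 : Tendsto (fun k : ℕ => Lm (-c1) k) atTop (𝓝 0) := (sum_bk hc1).tendsto_atTop_zero
  obtain ⟨k4, hk4⟩ := eventually_atTop.1 (t1.eventually (gt_mem_nhds (show 0 < ε / 2 by positivity)))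
  obtain ⟨k5, hk5⟩ := eventually_atTop.1 ((D1_two (show (0 : ℝ) < 1 / 20 by norm_num)).eventually
    (gt_mem_nhds (show 0 < ε / 2 by positivity)))
  obtain ⟨k6, hk6⟩ := block_neg hP hκ
  refine ⟨k2 + k3 + k4 + k5 + k6, fun k hk hξB a hAm => ?_⟩
  have e1 := hB k (by omega) ξ hξB a hAm
  have e2 := hC k (by omega) hξB a hAm
  have e4 : (∫ η, Mom P p Γ D κ1 a r u v k (mix (bk k) ξ η) *
      Mom P p Γ D κ1 a 0 u v k (mix (bk k) ξ η) ∂Pm ν) =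
      ∫ η, Mom P p Γ D κ1 a r u v k (mix (bk k) ξ η) ∂Pm ν := by
    refine integral_congr_ae (Filter.Eventually.of_forall fun η => ?_)
    show Mom P p Γ D κ1 a r u v k (mix (bk k) ξ η) *
      Mom P p Γ D κ1 a 0 u v k (mix (bk k) ξ η) = _
    rw [GB4_Mom0 huv fun z => ?_, mul_one]
    have h1 := hk6 p hp k (by omega) ξ hξB η z
    have h2 : 0 < (κ / 2) ^ 2 := by positivity
    linarith
  rw [e4, DD_zero, mul_one] at e1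
  have e5 := (hk4 k (by omega)).le
  have e6 := (hk5 k (by omega)).le
  obtain ⟨x, hx⟩ : ∃ x : ℝ, x = ∫ η, Mom P p Γ D κ1 a r u v k (mix (bk k) ξ η) ∂Pm ν :=
    ⟨_, rfl⟩
  obtain ⟨d1, hd1⟩ : ∃ d : ℂ, d = DD (Cs (Γ := Γ) (Y0 P p Γ D k ξ) (Lm (2 * κ1) k))
    (mt (Y0 P p Γ D k ξ) (Ra p k a)) r := ⟨_, rfl⟩
  obtain ⟨d2, hd2⟩ : ∃ d : ℂ, d = DD (Cs (Γ := Γ) (Y0 P p Γ D k ξ) (Lm (2 * κ1) k))
    (mt (P.X Γ D ξ) a) r := ⟨_, rfl⟩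
  rw [← hx, ← hd1] at e1
  rw [← hd1, ← hd2] at e2
  rw [← hx, ← hd2]
  have e7 : (x : ℂ) - d2 = ((x : ℂ) - d1) + (d1 - d2) := by ring
  have e8 := norm_add_le ((x : ℂ) - d1) (d1 - d2)
  rw [← e7] at e8
  have e9 : |x - d2.re| ≤ ‖(x : ℂ) - d2‖ := by
    have := Complex.abs_re_le_norm ((x : ℂ) - d2)
    simpa using this
  linarith

end N37
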