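import Pool.Agent.LibBE37N.D1
import Pool.Agent.LibBE37F.BF5
import Pool.Agent.LibBE37Z.WE

/-! ROW D2 (helper33): the nets of the amplitudes, almost every metric. -/

open MeasureTheory Set Filter Topology
open scoped ContDiff unitInterval

namespace N37

variable [F37.Sq]

open BGS BR F37 GWin
open B35 (Dt Cg Cs ln mt DD Cs_mem mix)

variable {Γ : Type} [Group Γ] [MulAction Γ Pl] {D : Set Pl} {P : Dt} {κ : ℝ} {ν : ℕ → Measure I}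

theorem nets (hP : Ok Γ D P) (hν : Law ν) (hκ : 0 < κ) {b : ℝ → ℂ} {ρ : ℝ} (hρ : 1 ≤ ρ)
    {M : ℕ → ℝ} (hM : ∀ Λ : ℝ, 1 ≤ Λ → Am M (ρ * Λ) (sc b Λ) ∧
      ∀ n : ℕ, (n : ℝ) ≤ Λ → Am M (ρ * Λ) (sc (Ac b n) Λ)) :
    ∃ δ0 : ℝ, 0 < δ0 ∧ ∀ p : Pr, p.Ok → p.δ ≤ δ0 →
    ∃ κ0 : ℝ, 0 < κ0 ∧ ∀ κ1 : ℝ, 0 < κ1 → κ1 ≤ κ0 →
      ∀ᵐ ξ ∂Pm ν, (∀ᶠ k : ℕ in atTop, ξ ∈ Bs P p Γ D κ k) → (∀ z, curv (P.X Γ D ξ) z < 0) →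
        (∀ᶠ k : ℕ in atTop, ∀ q : Cg Γ, ln (P.X Γ D ξ) q ≤ Lm κ1 k →
          q ∈ Cs (Γ := Γ) (Y0 P p Γ D k ξ) (Lm (2 * κ1) k)) ∧
        (∀ᶠ k : ℕ in atTop, ∀ n : ℕ, (n : ℝ) ≤ Lm κ1 k / ρ →
          |Mom P p Γ D κ1 (sc (Ac b n) (Lm κ1 k / ρ)) 2 1 2 k ξ -
            (DD (Cs (Γ := Γ) (Y0 P p Γ D k ξ) (Lm (2 * κ1) k))
              (mt (P.X Γ D ξ) (sc (Ac b n) (Lm κ1 k / ρ))) 2).re| ≤ 2) ∧
        (∀ᶠ k : ℕ in atTop, |Mom P p Γ D κ1 (sc b (Lm κ1 k / ρ)) 2 1 3 k ξ -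
            (DD (Cs (Γ := Γ) (Y0 P p Γ D k ξ) (Lm (2 * κ1) k))
              (mt (P.X Γ D ξ) (sc b (Lm κ1 k / ρ))) 2).re| ≤ 2) := by
  have hX := hP.cx.hX
  have hO := hP.ori
  obtain ⟨δ1, hδ1, H1⟩ := ae_net hP hν hκ (u := 1) (v := 2) one_pos (by norm_num) 2
  obtain ⟨δ2, hδ2, H2⟩ := ae_net hP hν hκ (u := 1) (v := 3) one_pos (by norm_num) 2
  obtain ⟨δ3, hδ3, H3⟩ := mean_net hP hν hκ (u := 1) (v := 2) one_pos (by norm_num) 2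
  obtain ⟨δ4, hδ4, H4⟩ := mean_net hP hν hκ (u := 1) (v := 3) one_pos (by norm_num) 2
  refine ⟨min (min δ1 δ2) (min δ3 δ4), by positivity, fun p hp hpδ => ?_⟩
  simp only [le_min_iff] at hpδ
  obtain ⟨⟨d1, d2⟩, d3, d4⟩ := hpδ
  obtain ⟨K1, hK1, H1⟩ := H1 p hp d1
  obtain ⟨K2, hK2, H2⟩ := H2 p hp d2
  obtain ⟨K3, hK3, H3⟩ := H3 p hp d3
  obtain ⟨K4, hK4, H4⟩ := H4 p hp d4
  refine ⟨min (min K1 K2) (min K3 K4), by positivity, fun κ1 hκ1 hle => ?_⟩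
  simp only [le_min_iff] at hle
  obtain ⟨⟨l1, l2⟩, l3, l4⟩ := hle
  have hρ0 : 0 < ρ := by linarith
  have hL1 : ∀ k, 1 ≤ Lm κ1 k := fun k => Lm_one κ1 hκ1.le k
  have hρL : ∀ k, ρ * (Lm κ1 k / ρ) = Lm κ1 k := fun k => by field_simp
  obtain ⟨N, hN⟩ : ∃ N : ℕ → ℕ, N = fun k => if 1 ≤ Lm κ1 k / ρ then ⌊Lm κ1 k / ρ⌋₊ + 1 else 0 :=
    ⟨_, rfl⟩
  have hN1 : ∀ k, ∀ i < N k, 1 ≤ Lm κ1 k / ρ ∧ (i : ℝ) ≤ Lm κ1 k / ρ := by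
    intro k i hi
    rw [hN] at hi
    by_cases h : 1 ≤ Lm κ1 k / ρ
    · refine ⟨h, ?_⟩
      simp only [if_pos h] at hi
      have h2 : i ≤ ⌊Lm κ1 k / ρ⌋₊ := by omega
      exact (Nat.le_floor_iff (by linarith)).1 h2
    · simp only [if_neg h] at hi
      omega
  have hN2 : ∀ k, ∀ i : ℕ, 1 ≤ Lm κ1 k / ρ → (i : ℝ) ≤ Lm κ1 k / ρ → i < N k := by
    intro k i h hi
    rw [hN]
    simp only [if_pos h]
    have h2 : i ≤ ⌊Lm κ1 k / ρ⌋₊ := Nat.le_floor hi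
    omega
  have hN3 : ∀ k, (N k : ℝ) ≤ 2 * Lm κ1 k := by
    intro k
    rw [hN]
    have h1 := hL1 k
    by_cases h : 1 ≤ Lm κ1 k / ρ
    · simp only [if_pos h]
      push_cast
      have h2 := Nat.floor_le (show 0 ≤ Lm κ1 k / ρ by linarith)
      have h3 : Lm κ1 k / ρ ≤ Lm κ1 k := div_le_self (by linarith) hρ
      linarith
    · simp only [if_neg h]
      push_cast
      linarith
  have HA := H1 κ1 hκ1 l1 M (fun k i => sc (Ac b i) (Lm κ1 k / ρ)) N 2 (fun k i hi => by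
    have h1 := (hM _ (hN1 k i hi).1).2 i (hN1 k i hi).2
    rwa [hρL] at h1) hN3
  obtain ⟨N', hN'⟩ : ∃ N' : ℕ → ℕ, N' = fun k => if 1 ≤ Lm κ1 k / ρ then 1 else 0 := ⟨_, rfl⟩
  have HB := H2 κ1 hκ1 l2 M (fun k _ => sc b (Lm κ1 k / ρ)) N' 2 (fun k i hi => by
    rw [hN'] at hi
    by_cases h : 1 ≤ Lm κ1 k / ρ
    · have h1 := (hM _ h).1
      rwa [hρL] at h1
    · simp only [if_neg h] at hi
      omega) (fun k => by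
    rw [hN']
    have h1 := hL1 k
    by_cases h : 1 ≤ Lm κ1 k / ρ
    · simp only [if_pos h]; push_cast; linarith
    · simp only [if_neg h]; push_cast; linarith)
  have hLt : Tendsto (Lm κ1) atTop atTop := (W37.WE_Lm hκ1).2.1
  filter_upwards [HA, HB] with ξ hA hB hξ hneg
  obtain ⟨k1, hk1⟩ := eventually_atTop.1 hξ
  obtain ⟨kA, hkA⟩ := hA ⟨k1, hk1⟩ 1 one_pos
  obtain ⟨kB, hkB⟩ := hB ⟨k1, hk1⟩ 1 one_pos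
  obtain ⟨kC, hkC⟩ := H3 κ1 hκ1 l3 M ξ hneg 1 one_pos
  obtain ⟨kD, hkD⟩ := H4 κ1 hκ1 l4 M ξ hneg 1 one_pos
  obtain ⟨k7, hk7⟩ := cmp_X hP hp hneg hκ1
  obtain ⟨k8, hk8⟩ := eventually_atTop.1 (Lm_lt (show κ1 < 2 * κ1 by linarith) 2)
  refine ⟨?_, ?_, ?_⟩
  · filter_upwards [hξ, eventually_ge_atTop k7, eventually_ge_atTop k8] with k e1 e2 e3 q hq
    rw [Cs_mem hX hO (Y0_hm hP hκ e1)]
    have h1 := (hk7 k e2 q).1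
    have h2 := hk8 k e3
    linarith
  · filter_upwards [hξ, eventually_ge_atTop kA, eventually_ge_atTop kC,
      hLt.eventually_ge_atTop ρ] with k e1 e2 e3 e4 n hn
    have h0 : 1 ≤ Lm κ1 k / ρ := by rwa [le_div_iff₀ hρ0, one_mul]
    have h1 := hkA k e2 n (hN2 k n h0 hn)
    have h2 := hkC k e3 e1 (sc (Ac b n) (Lm κ1 k / ρ)) (by
      have h3 := (hM _ h0).2 n hn
      rwa [hρL] at h3)
    have h4 := abs_add_le (Mom P p Γ D κ1 (sc (Ac b n) (Lm κ1 k / ρ)) 2 1 2 k ξ -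
      ∫ η, Mom P p Γ D κ1 (sc (Ac b n) (Lm κ1 k / ρ)) 2 1 2 k (mix (bk k) ξ η) ∂Pm ν)
      ((∫ η, Mom P p Γ D κ1 (sc (Ac b n) (Lm κ1 k / ρ)) 2 1 2 k (mix (bk k) ξ η) ∂Pm ν) -
      (DD (Cs (Γ := Γ) (Y0 P p Γ D k ξ) (Lm (2 * κ1) k))
              (mt (P.X Γ D ξ) (sc (Ac b n) (Lm κ1 k / ρ))) 2).re)
    rw [sub_add_sub_cancel] at h4
    linarith
  · filter_upwards [hξ, eventually_ge_atTop kB, eventually_ge_atTop kD,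
      hLt.eventually_ge_atTop ρ] with k e1 e2 e3 e4
    have h0 : 1 ≤ Lm κ1 k / ρ := by rwa [le_div_iff₀ hρ0, one_mul]
    have h1 := hkB k e2 0 (by rw [hN']; simp only [if_pos h0]; exact one_pos)
    have h2 := hkD k e3 e1 (sc b (Lm κ1 k / ρ)) (by
      have h3 := (hM _ h0).1
      rwa [hρL] at h3)
    have h4 := abs_add_le (Mom P p Γ D κ1 (sc b (Lm κ1 k / ρ)) 2 1 3 k ξ -
      ∫ η, Mom P p Γ D κ1 (sc b (Lm κ1 k / ρ)) 2 1 3 k (mix (bk k) ξ η) ∂Pm ν)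
      ((∫ η, Mom P p Γ D κ1 (sc b (Lm κ1 k / ρ)) 2 1 3 k (mix (bk k) ξ η) ∂Pm ν) -
      (DD (Cs (Γ := Γ) (Y0 P p Γ D k ξ) (Lm (2 * κ1) k))
              (mt (P.X Γ D ξ) (sc b (Lm κ1 k / ρ))) 2).re)
    rw [sub_add_sub_cancel] at h4
    linarith

end N37
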