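import Pool.Agent.LibNV73.Q8
import Pool.Agent.LibNV73.Q5
import Pool.Agent.LibBE37F.Defs

/-! BE36, number variance: the amplitudes. -/

open MeasureTheory Set Filter Topology
open scoped ContDiff unitInterval

namespace N37

variable [F37.Sq]

open FG33 SC35 GWin NV73

/-- The amplitude of the mollified window `[0, c)`: `tf (Ac b c) = ind c * tf b`. -/
noncomputable def Ac (b : ℝ → ℂ) (c : ℝ) : ℝ → ℂ := aR b (ind c) 1

end N37
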