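import Pool.Agent.LibBE37N.A3
import Pool.Agent.LibBE37N.B1
import Pool.Agent.LibBE37N.C2
import Pool.Agent.LibGD33.Asm2

/-! ROW E1 : the mollified windows of one metric. SHORT/MEDIUM.
PLAN. `Λ = Lm κ1 k / ρ`, `P = 2 ^ k`, `n = ⌊c⌋₊` (`c / 2 ≤ n ≤ c`, `1 ≤ n` for `c ≥ M0 ≥ 2`). `net` (A3), `mom_st` (C2) for `n` and for `b`, `h1`, `h2`, `DD_low`, `DD_up` (B1) with `Q = Cs (Y0 ..) (Lm (2 κ1) k)` (`hCs`, `ρ * Λ = Lm κ1 k`, `m'.1.1 = P.X Γ D ξ`): the mean of `st (Ac c) ^ 2` is at least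
`1/2 (1/2 Mom - C) - 2 (4 Mom_b + C) - 1 ≥ 1/4 (DD - 2) - 8 (C' + 2) - .. ≥ 1/40 log n - C'' ≥ 1/40 log (c / 2) - C'' ≥ 1/50 log c - C0`. -/

open MeasureTheory Set Filter Topology
open scoped ContDiff unitInterval

namespace N37

variable [F37.Sq]

open FG33 SC35 GWin NV73 BGS BR F37
open B35 (Dt Cs ln mt DD Cg)

variable {Γ : Type} [Group Γ] [MulAction Γ Pl] {D : Set Pl} {b : ℝ → ℂ}

theorem one_metric {P : Dt} (hP : F37.Ok Γ D P) {p : Pr} (hp : p.Ok) {κ κ1 : ℝ} (hκ : 0 < κ)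
    (hκ1 : 0 < κ1) (hb : Ker b) {ρ : ℝ} (hρ : 1 ≤ ρ) (hρ' : ∀ s, ρ < |s| → b s = 0) {M : ℕ → ℝ}
    (hM : ∀ Λ : ℝ, 1 ≤ Λ → Am M (ρ * Λ) (sc b Λ) ∧
      ∀ n : ℕ, (n : ℝ) ≤ Λ → Am M (ρ * Λ) (sc (Ac b n) Λ))
    {ξ : Dir → I} (m' : Mt Γ D) (hm' : m'.1.1 = P.X Γ D ξ)
    (hξ : ∀ᶠ k : ℕ in atTop, ξ ∈ Bs P p Γ D κ k) (hT : W37.Tra D P p κ1 ξ m')
    (hCs : ∀ᶠ k : ℕ in atTop, ∀ q : Cg Γ, ln (P.X Γ D ξ) q ≤ Lm κ1 k →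
      q ∈ Cs (Γ := Γ) (Y0 P p Γ D k ξ) (Lm (2 * κ1) k))
    (h1 : ∀ᶠ k : ℕ in atTop, ∀ n : ℕ, (n : ℝ) ≤ Lm κ1 k / ρ →
      |Mom P p Γ D κ1 (sc (Ac b n) (Lm κ1 k / ρ)) 2 1 2 k ξ -
        (DD (Cs (Γ := Γ) (Y0 P p Γ D k ξ) (Lm (2 * κ1) k))
          (mt (P.X Γ D ξ) (sc (Ac b n) (Lm κ1 k / ρ))) 2).re| ≤ 2)
    (h2 : ∀ᶠ k : ℕ in atTop, |Mom P p Γ D κ1 (sc b (Lm κ1 k / ρ)) 2 1 3 k ξ -
        (DD (Cs (Γ := Γ) (Y0 P p Γ D k ξ) (Lm (2 * κ1) k))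
          (mt (P.X Γ D ξ) (sc b (Lm κ1 k / ρ))) 2).re| ≤ 2) :
    ∃ M0 C : ℝ, 1 ≤ M0 ∧ 0 ≤ C ∧ ∀ᶠ k : ℕ in atTop, ∀ c : ℝ, M0 ≤ c →
      M0 * c ≤ Lm κ1 k / ρ → 1 / 50 * Real.log c - C ≤
        1 / 2 ^ k * ∫ τ in (2 : ℝ) ^ k..2 * 2 ^ k,
          st (FG33.lam m') (Ac b c) (Lm κ1 k / ρ) τ ^ 2 := by
  obtain ⟨M1, hM1, hlow⟩ := DD_low hP.cx.hX hP.ori m' hb hρ hρ'
  obtain ⟨C1, M2, hC1, hup⟩ := DD_up hP.cx.hX hP.ori m' hb hρ hρ'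
  obtain ⟨C2, hC2, hmom⟩ := mom_st hP hp hκ hκ1 hb hρ hM m' hξ hT
  have hl : Lev (FG33.lam m') := GD.lev hP.cx.hX m'
  refine ⟨2 * M1 + 2, 18 + 3 * C2 + 8 * C1, by linarith, by positivity, ?_⟩
  filter_upwards [hmom, hCs, h1, h2, k_Lm hκ1 (ρ * (|M2| + 1))] with k hk1 hk2 hk3 hk4 hk5
  intro c hc hcΛ
  obtain ⟨Λ, hΛ⟩ : ∃ Λ : ℝ, Λ = Lm κ1 k / ρ := ⟨_, rfl⟩
  rw [← hΛ] at hk1 hk3 hk4 hcΛ ⊢
  have hρ0 : 0 < ρ := by linarith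
  have hρΛ : ρ * Λ = Lm κ1 k := by
    rw [hΛ]
    field_simp
  have habs := abs_nonneg M2
  have hΛ2 : |M2| + 1 ≤ Λ := by
    rw [hΛ, le_div_iff₀ hρ0]
    have hk0 : (0 : ℝ) ≤ k := Nat.cast_nonneg k
    have h3 : ρ * (|M2| + 1) * 1 ≤ ρ * (|M2| + 1) * ((k : ℝ) + 1) :=
      mul_le_mul_of_nonneg_left (by linarith) (by positivity)
    linarith
  have hΛ1 : 1 ≤ Λ := by linarith
  have hΛM2 : M2 ≤ Λ := by linarith [le_abs_self M2]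
  have hc1 : 1 ≤ c := by linarith
  have hcle : c ≤ Λ := by
    have h3 : 1 * c ≤ (2 * M1 + 2) * c := mul_le_mul_of_nonneg_right (by linarith) (by linarith)
    linarith
  obtain ⟨n, hn⟩ : ∃ n : ℕ, n = ⌊c⌋₊ := ⟨_, rfl⟩
  have hn1 : (n : ℝ) ≤ c := by
    rw [hn]
    exact Nat.floor_le (by linarith)
  have hn2 : c < n + 1 := by
    rw [hn]
    exact Nat.lt_floor_add_one c
  have hnM : M1 ≤ n := by linarith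
  have hn3 : 1 ≤ n := by
    have : (1 : ℝ) ≤ n := by linarith
    exact_mod_cast this
  have hnΛ : (n : ℝ) ≤ Λ := hn1.trans hcle
  have hMn : M1 * n ≤ Λ := by
    have h3 : M1 * n ≤ M1 * c := mul_le_mul_of_nonneg_left hn1 (by linarith)
    have h4 : M1 * c ≤ (2 * M1 + 2) * c := mul_le_mul_of_nonneg_right (by linarith) (by linarith)
    linarith
  have hQ : ∀ q : Cg Γ, ln m'.1.1 q ≤ ρ * Λ →
      q ∈ Cs (Γ := Γ) (Y0 P p Γ D k ξ) (Lm (2 * κ1) k) := by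
    intro q hq
    rw [hρΛ, hm'] at hq
    exact hk2 q hq
  have d1 := hlow n Λ hnM hMn _ hQ
  have d2 := hup Λ hΛM2 _ hQ
  rw [hm'] at d1 d2
  have m1 := (abs_le.1 (hk3 n hnΛ)).1
  have m2 := (abs_le.1 hk4).2
  have s1 := hk1.1
  have s2 := hk1.2 n hn3 hnΛ
  have hnet := net hb hl hΛ1 hc1 hcle (P := (2 : ℝ) ^ k) (one_le_pow₀ (by norm_num))
  rw [← hn] at hnet
  have hlog1 : Real.log c - 1 ≤ Real.log n := by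
    have h3 : c / 2 ≤ n := by linarith
    have h4 : Real.log (c / 2) ≤ Real.log n := Real.log_le_log (by linarith) h3
    rw [Real.log_div (by linarith) (by norm_num)] at h4
    have h5 := Real.log_two_lt_d9
    linarith
  have hlog2 : 0 ≤ Real.log c := Real.log_nonneg hc1
  linarith

end N37
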