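import Pool.Agent.LibBE37N.A2
import Pool.Agent.LibNV73.F4

/-! ROW E2 : the number variance. MEDIUM.
PLAN. MODEL: the end of `num_low1` (LibSW73/R17.lean). `numVar_eq` (LibNV73/F4) with `c = 1`: `numVar m' T (1 / L) = tm T (stF (lam m') (ind 1) L ^ 2)` (`FE35.tmean`/`stat` are the same functions as `EM73.tm`/`stF`, see `numVar_low1` in LibSW73/F5). `moll_unif hb (r := 2)` with `N = 200`, `f = ind 1` (`rd_indc`, `bound_ind hl`),
`R = M = Λ / L ≥ M1`, `l = L`, `δ = T ^ (1 / 20)`: `tm (T - δ) (st (aR b (ind 1) M) L ^ 2) ≤ (T / (T - δ)) ^ 2 tm T (stF ^ 2) + 1 ≤ 4 tm T (stF ^ 2) + 1` (the error is computed in `num_low1`). `st_aR` (A2): `st (aR b (ind 1) M) L = st (Ac b M) (L * M)`, `L * M = Λ`.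
For `f ≥ 0` continuous: `tm (T - δ) f ≥ (2 / (T - δ) ^ 2) ∫ u in 2^k..2 * 2^k, (T - δ - u) f u ≥ (1 / 16) (1 / 2^k) ∫ u in 2^k..2 * 2^k, f u` for `4 * 2^k ≤ T ≤ 8 * 2^k`, `δ ≤ T / 4`. So `numVar ≥ (1/4) (1/16 (1/50 log (Λ / L) - C) - 1) ≥ 1/3200 log (Λ / L) - C1`. `hg`: `L ≤ Λ ≤ 2 ^ k`. -/

open MeasureTheory Set Filter Topology
open scoped ContDiff unitInterval

namespace N37

variable [F37.Sq]

open FG33 SC35 GWin NV73 BGS

variable {Γ : Type} [Group Γ] [MulAction Γ Pl] {D : Set Pl} {b : ℝ → ℂ}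

/-- the numerical error terms, `T = y^20`, `δ = y` -/
private theorem E2_err {y : ℝ} (hy : 1 ≤ y) :
    (1 + y) ^ (4 * 2 + 1) / y ^ 20 + (1 + y ^ 20) ^ (4 * 2) / y ^ 200 ≤ 768 := by
  have hy0 : 0 < y := by linarith
  have h1 : (1 + y) ^ (4 * 2 + 1) / y ^ 20 ≤ 512 := by
    rw [div_le_iff₀ (by positivity)]
    calc (1 + y) ^ (4 * 2 + 1) ≤ (2 * y) ^ (4 * 2 + 1) := by gcongr; linarith
      _ = 512 * y ^ 9 := by ring
      _ ≤ 512 * y ^ 20 := by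
        have : y ^ 9 ≤ y ^ 20 := pow_le_pow_right₀ hy (by norm_num)
        linarith
  have h2 : (1 + y ^ 20) ^ (4 * 2) / y ^ 200 ≤ 256 := by
    rw [div_le_iff₀ (by positivity)]
    have h3 : 1 ≤ y ^ 20 := one_le_pow₀ hy
    calc (1 + y ^ 20) ^ (4 * 2) ≤ (2 * y ^ 20) ^ (4 * 2) := by gcongr; linarith
      _ = 256 * y ^ 160 := by ring
      _ ≤ 256 * y ^ 200 := by
        have : y ^ 160 ≤ y ^ 200 := pow_le_pow_right₀ hy (by norm_num)
        linarith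
  linarith

private theorem E2_pow {y : ℝ} (hy : 2 ≤ y) : 4 * y ≤ y ^ 20 := by
  have h1 : (2 : ℝ) ^ 19 ≤ y ^ 19 := by gcongr
  have h2 : y ^ 20 = y ^ 19 * y := by ring
  rw [h2]
  have : (4 : ℝ) ≤ y ^ 19 := le_trans (by norm_num) h1
  nlinarith

/-- the triangular mean and the mean over a dyadic window -/
private theorem E2_mean {f : ℝ → ℝ} (hf : Continuous f) (h0 : ∀ u, 0 ≤ f u) {K T S : ℝ}
    (hK : 0 < K) (hT1 : 4 * K ≤ T) (hT2 : T ≤ 8 * K) (hS1 : S ≤ T) (hS2 : 3 / 4 * T ≤ S) :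
    1 / 16 * (1 / K * ∫ u in K..2 * K, f u) ≤ EM73.tm S f := by
  have hS3 : 3 * K ≤ S := by linarith
  have hS0 : 0 < S := by linarith
  have h1 : ∫ u in K..2 * K, S / 3 * f u ≤ ∫ u in K..2 * K, (S - u) * f u :=
    intervalIntegral.integral_mono_on (by linarith)
      (Continuous.intervalIntegrable (by fun_prop) _ _)
      (Continuous.intervalIntegrable (by fun_prop) _ _)
      fun u hu => mul_le_mul_of_nonneg_right (by linarith [hu.2]) (h0 u)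
  have h2 : ∫ u in K..2 * K, (S - u) * f u ≤ ∫ u in (0 : ℝ)..S, (S - u) * f u := by
    refine intervalIntegral.integral_mono_interval hK.le (by linarith) (by linarith) ?_
      (Continuous.intervalIntegrable (by fun_prop) _ _)
    refine (ae_restrict_iff' measurableSet_Ioc).2 (Eventually.of_forall fun u hu => ?_)
    exact mul_nonneg (by linarith [hu.2]) (h0 u)
  rw [intervalIntegral.integral_const_mul] at h1
  have hI : 0 ≤ ∫ u in K..2 * K, f u :=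
    intervalIntegral.integral_nonneg (by linarith) fun u _ => h0 u
  have h3 : 1 / 16 * (1 / K) ≤ 2 / S ^ 2 * (S / 3) := by
    have h4 : 2 / S ^ 2 * (S / 3) = 2 / (3 * S) := by field_simp
    have h5 : 1 / 16 * (1 / K) = 1 / (16 * K) := by field_simp
    rw [h4, h5, div_le_div_iff₀ (by positivity) (by positivity)]
    linarith
  unfold EM73.tm
  calc 1 / 16 * (1 / K * ∫ u in K..2 * K, f u) = 1 / 16 * (1 / K) * ∫ u in K..2 * K, f u := by
        ring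
    _ ≤ 2 / S ^ 2 * (S / 3) * ∫ u in K..2 * K, f u := mul_le_mul_of_nonneg_right h3 hI
    _ = 2 / S ^ 2 * (S / 3 * ∫ u in K..2 * K, f u) := by ring
    _ ≤ _ := mul_le_mul_of_nonneg_left (h1.trans h2) (by positivity)

theorem to_numVar (hX : Surface Γ D) (m' : Mt Γ D) (hb : Ker b) {g : ℕ → ℝ}
    (hg : ∀ᶠ k : ℕ in atTop, g k ≤ 2 ^ k) {M0 C : ℝ} (hM0 : 1 ≤ M0) (hC : 0 ≤ C)
    (h : ∀ᶠ k : ℕ in atTop, ∀ c : ℝ, M0 ≤ c → M0 * c ≤ g k → 1 / 50 * Real.log c - C ≤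
      1 / 2 ^ k * ∫ τ in (2 : ℝ) ^ k..2 * 2 ^ k, st (FG33.lam m') (Ac b c) (g k) τ ^ 2) :
    ∃ M1 C1 : ℝ, 1 ≤ M1 ∧ 0 ≤ C1 ∧ ∀ᶠ k : ℕ in atTop, ∀ T : ℝ, 4 * 2 ^ k ≤ T → T ≤ 8 * 2 ^ k →
      ∀ L : ℝ, M1 ≤ L → M1 * L ≤ g k →
        1 / 3200 * Real.log (g k / L) - C1 ≤ EM73.numVar m' T (1 / L) := by
  have hl : Lev (FG33.lam m') := GD.lev hX m'
  obtain ⟨K, hK, hmoll⟩ := moll_unif hb (r := 2) (by decide) 200
  obtain ⟨C2, hC2, hbd⟩ := bound_ind hl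
  obtain ⟨K', hK'⟩ : ∃ K', K' = C2 ^ 2 * (12 + 2 * K) * 768 := ⟨_, rfl⟩
  have hK'0 : 0 ≤ K' := by
    rw [hK']
    positivity
  refine ⟨M0, C / 64 + K' / 4, hM0, by positivity, ?_⟩
  have hy : Tendsto (fun k : ℕ => ((2 : ℝ) ^ k) ^ (1 / 20 : ℝ)) atTop atTop :=
    (tendsto_rpow_atTop (by norm_num)).comp (tendsto_pow_atTop_atTop_of_one_lt one_lt_two)
  filter_upwards [h, hg, hy.eventually_ge_atTop 2] with k h1 h2 h3 T hT1 hT2 L hL1 hL2
  obtain ⟨Λ, hΛ⟩ : ∃ Λ, Λ = g k := ⟨_, rfl⟩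
  rw [← hΛ] at h1 h2 hL2 ⊢
  obtain ⟨P, hPk⟩ : ∃ P : ℝ, P = 2 ^ k := ⟨_, rfl⟩
  rw [← hPk] at h1 h2 h3 hT1 hT2
  have hP : 0 < P := by
    rw [hPk]
    positivity
  obtain ⟨y, hy'⟩ : ∃ y, y = T ^ (1 / 20 : ℝ) := ⟨_, rfl⟩
  have hT0 : 0 < T := by linarith
  have hy2 : 2 ≤ y := by
    rw [hy']
    exact h3.trans (Real.rpow_le_rpow hP.le (by linarith) (by norm_num))
  have hTy : T = y ^ 20 := by
    rw [hy', ← Real.rpow_natCast, ← Real.rpow_mul hT0.le]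
    norm_num
  have h4y := E2_pow hy2
  rw [← hTy] at h4y
  have hL1' : 1 ≤ L := hM0.trans hL1
  have hL0 : 0 < L := by linarith
  have hΛ0 : 0 < Λ := by nlinarith
  have hMM : M0 ≤ Λ / L := by
    rw [le_div_iff₀ hL0]
    exact hL2
  have hM1 : 1 ≤ Λ / L := hM0.trans hMM
  have hA := h1 (Λ / L) hMM (by
    rw [mul_div_assoc', div_le_iff₀ hL0, mul_comm]
    exact mul_le_mul_of_nonneg_left hL1 hΛ0.le)
  have hm := hmoll (FG33.lam m') (ind 1) C2 (Λ / L) hl rd_indc hC2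
    (fun l' τ hl'' => hbd 1 l' τ le_rfl (by norm_num) hl'') hM1 L T y hL1' (by linarith)
    (by linarith)
  have hst : (fun u => st (FG33.lam m') (aR b (ind 1) (Λ / L)) L u ^ 2) =
      fun u => st (FG33.lam m') (Ac b (Λ / L)) Λ u ^ 2 := by
    ext u
    rw [st_aR hb _ (by linarith) hL0, mul_div_cancel₀ _ hL0.ne']
  rw [hst] at hm
  have hamp : IsAmp (Ac b (Λ / L)) := amp_aR hb rd_indc one_pos
  have hme := E2_mean (K := P) (T := T) (S := T - y)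
    ((st_cont hamp hl hΛ0).pow 2) (fun u => sq_nonneg _) hP hT1 hT2 (by linarith)
    (by linarith)
  have hnum : EM73.numVar m' T (1 / L) =
      EM73.tm T fun u => stF (FG33.lam m') (ind 1) L u ^ 2 := by
    rw [numVar_eq hX m' hL0 one_pos]
    rfl
  rw [hnum]
  have hE := E2_err (y := y) (by linarith)
  rw [← hTy] at hE
  have hE' : C2 ^ 2 * (12 + 2 * K) * ((1 + y) ^ (4 * 2 + 1) / T + (1 + T) ^ (4 * 2) / y ^ 200) ≤
      K' := by
    rw [hK']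
    exact mul_le_mul_of_nonneg_left hE (by positivity)
  have hV0 : 0 ≤ EM73.tm T fun u => stF (FG33.lam m') (ind 1) L u ^ 2 := by
    rw [EM73.tm]
    refine mul_nonneg (by positivity) (intervalIntegral.integral_nonneg hT0.le fun u hu => ?_)
    exact mul_nonneg (by linarith [hu.2]) (sq_nonneg _)
  obtain ⟨V, hV⟩ : ∃ V, V = EM73.tm T fun u => stF (FG33.lam m') (ind 1) L u ^ 2 := ⟨_, rfl⟩
  rw [← hV] at hm hV0 ⊢
  have hq : (T / (T - y)) ^ 2 ≤ 4 := by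
    have h5 : T / (T - y) ≤ 2 := by
      rw [div_le_iff₀ (by linarith)]
      linarith
    have h6 : 0 ≤ T / (T - y) := div_nonneg hT0.le (by linarith)
    nlinarith
  have h7 : (T / (T - y)) ^ 2 * V ≤ 4 * V := mul_le_mul_of_nonneg_right hq hV0
  have h8 := hme.trans (hm.trans (add_le_add h7 hE'))
  have h9 : 1 / 16 * (1 / 50 * Real.log (Λ / L) - C) ≤ 4 * V + K' :=
    (mul_le_mul_of_nonneg_left hA (by norm_num)).trans h8
  linarith

end N37
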