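import Pool.Agent.LibNV73.F4
import Pool.Agent.LibBE37N.E3
import Pool.Agent.LibBE33.Fin

/-! The remainder in Weyl's law from the number variance. -/

open MeasureTheory Set Filter Topology
open scoped ContDiff unitInterval

namespace N37

open FG33 BGS
open BE33 (Nc)

variable {Γ : Type} [Group Γ] [MulAction Γ Pl] {D : Set Pl}

private theorem E4_mono {κ : ℕ → ℝ} (hf : ∀ y, ({k | κ k ≤ y} : Set ℕ).Finite) :
    Monotone (Nc κ) := by
  intro x y hxy
  have h : ({k | κ k ≤ x} : Set ℕ) ⊆ {k | κ k ≤ y} := fun k hk =>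
    le_trans (show κ k ≤ x from hk) hxy
  unfold Nc
  exact_mod_cast Set.ncard_le_ncard h (hf y)

private theorem E4_int {κ : ℕ → ℝ} (hf : ∀ y, ({k | κ k ≤ y} : Set ℕ).Finite) (T a b : ℝ) :
    IntervalIntegrable (fun u => (T - u) * (Nc κ u - u ^ 2 / (4 * Real.pi)) ^ 2) volume a b := by
  have h1 : Monotone (Nc κ) := E4_mono hf
  have h0 : ∀ y, 0 ≤ Nc κ y := fun y => Nat.cast_nonneg _
  have h2 : Monotone fun u => Nc κ u ^ 2 := fun x y hxy => pow_le_pow_left₀ (h0 x) (h1 hxy) 2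
  have i1 : IntervalIntegrable (Nc κ) volume a b := h1.intervalIntegrable
  have i2 : IntervalIntegrable (fun u => Nc κ u ^ 2) volume a b := h2.intervalIntegrable
  have i3 : IntervalIntegrable (fun u => (T - u) * Nc κ u ^ 2) volume a b :=
    i2.continuousOn_mul (by fun_prop)
  have i4 : IntervalIntegrable (fun u => (-(2 * (T - u) * (u ^ 2 / (4 * Real.pi)))) * Nc κ u)
      volume a b := i1.continuousOn_mul (by fun_prop)
  have i5 : IntervalIntegrable (fun u : ℝ => (T - u) * (u ^ 2 / (4 * Real.pi)) ^ 2)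
      volume a b := Continuous.intervalIntegrable (by fun_prop) _ _
  have h3 := (i3.add i4).add i5
  refine IntervalIntegrable.congr (fun u _ => ?_) h3
  show (T - u) * Nc κ u ^ 2 + -(2 * (T - u) * (u ^ 2 / (4 * Real.pi))) * Nc κ u +
    (T - u) * (u ^ 2 / (4 * Real.pi)) ^ 2 = (T - u) * (Nc κ u - u ^ 2 / (4 * Real.pi)) ^ 2
  ring

private theorem E4_cnt {κ : ℕ → ℝ} (hf : ∀ y, ({k | κ k ≤ y} : Set ℕ).Finite) {δ τ : ℝ}
    (hδ : 0 < δ) (h1 : τ ∉ range κ) (h2 : τ ∉ range fun k => κ k - δ) :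
    (({k : ℕ | τ ≤ κ k ∧ κ k < τ + δ}.ncard : ℕ) : ℝ) = Nc κ (τ + δ) - Nc κ τ := by
  have e : ({k | τ ≤ κ k ∧ κ k < τ + δ} : Set ℕ) = {k | κ k ≤ τ + δ} \ {k | κ k ≤ τ} := by
    ext k
    simp only [mem_ofPred_eq, Set.mem_sdiff, not_le]
    constructor
    · rintro ⟨h3, h4⟩
      refine ⟨h4.le, lt_of_le_of_ne h3 fun h5 => h1 ⟨k, h5.symm⟩⟩
    · rintro ⟨h3, h4⟩
      refine ⟨h4.le, lt_of_le_of_ne h3 fun h5 => h2 ⟨k, ?_⟩⟩
      show κ k - δ = τ
      rw [h5]
      ring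
  have hsub : ({k | κ k ≤ τ} : Set ℕ) ⊆ {k | κ k ≤ τ + δ} := by
    intro k hk
    have hk' : κ k ≤ τ := hk
    show κ k ≤ τ + δ
    linarith
  have h7 := Set.ncard_sdiff_add_ncard_of_subset hsub (hf _)
  unfold Nc
  rw [e, ← h7]
  push_cast
  ring

private theorem E4_weight (T : ℝ) : ∫ u in (0 : ℝ)..T, (T - u) = T ^ 2 / 2 := by
  rw [intervalIntegral.integral_sub (by simp) (by simp), intervalIntegral.integral_const,
    integral_id, smul_eq_mul]
  ring

private theorem E4_bd {κ : ℕ → ℝ} (hf : ∀ y, ({k | κ k ≤ y} : Set ℕ).Finite) {T δ : ℝ}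
    (hδ : 0 < δ) (hT : 3 * δ ≤ T) :
    FE35.tmean T (fun τ => (({k : ℕ | τ ≤ κ k ∧ κ k < τ + δ}.ncard : ℕ) -
      δ * τ / (2 * Real.pi)) ^ 2) ≤
    16 * FE35.tmean (T + δ) (fun y => (Nc κ y - y ^ 2 / (4 * Real.pi)) ^ 2) + 2 * δ ^ 4 := by
  have hT0 : 0 < T := by linarith
  have hpi := Real.pi_gt_three
  set R : ℝ → ℝ := fun y => Nc κ y - y ^ 2 / (4 * Real.pi) with hR
  set K : ℝ := ∫ v in (0 : ℝ)..(T + δ), (T + δ - v) * R v ^ 2 with hK
  have hK0 : 0 ≤ K := by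
    refine intervalIntegral.integral_nonneg (by linarith) fun v hv => ?_
    exact mul_nonneg (by linarith [hv.2]) (sq_nonneg _)
  have hi := fun S a b : ℝ => E4_int hf S a b
  have hish : IntervalIntegrable (fun u => (T - u) * R (u + δ) ^ 2) volume 0 T := by
    have h1 := (hi (T + δ) (0 + δ) (T + δ)).comp_add_right δ
    simp only [add_sub_cancel_right] at h1
    refine IntervalIntegrable.congr (fun u _ => ?_) h1
    simp only [hR]
    ring
  have hI1 : ∫ u in (0 : ℝ)..T, (T - u) * R (u + δ) ^ 2 ≤ K := by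
    have h1 : ∫ u in (0 : ℝ)..T, (T - u) * R (u + δ) ^ 2 =
        ∫ v in (0 + δ)..(T + δ), (T + δ - v) * R v ^ 2 := by
      rw [← intervalIntegral.integral_comp_add_right (fun v => (T + δ - v) * R v ^ 2)]
      refine intervalIntegral.integral_congr fun u _ => ?_
      show (T - u) * R (u + δ) ^ 2 = (T + δ - (u + δ)) * R (u + δ) ^ 2
      ring
    rw [h1, hK]
    refine intervalIntegral.integral_mono_interval (by linarith) (by linarith) le_rfl ?_
      (hi (T + δ) 0 (T + δ))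
    refine (ae_restrict_iff' measurableSet_Ioc).2 (Filter.Eventually.of_forall fun v hv => ?_)
    exact mul_nonneg (by linarith [hv.2]) (sq_nonneg _)
  have hI2 : ∫ u in (0 : ℝ)..T, (T - u) * R u ^ 2 ≤ K := by
    have h1 : ∫ u in (0 : ℝ)..T, (T - u) * R u ^ 2 ≤
        ∫ u in (0 : ℝ)..T, (T + δ - u) * R u ^ 2 := by
      refine intervalIntegral.integral_mono_on hT0.le (hi T 0 T) (hi (T + δ) 0 T) fun u _ => ?_
      exact mul_le_mul_of_nonneg_right (by linarith) (sq_nonneg _)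
    refine h1.trans ?_
    rw [hK]
    refine intervalIntegral.integral_mono_interval le_rfl hT0.le (by linarith) ?_
      (hi (T + δ) 0 (T + δ))
    refine (ae_restrict_iff' measurableSet_Ioc).2 (Filter.Eventually.of_forall fun v hv => ?_)
    exact mul_nonneg (by linarith [hv.2]) (sq_nonneg _)
  have hci : IntervalIntegrable (fun u : ℝ => (T - u) * (2 * δ ^ 4)) volume 0 T :=
    Continuous.intervalIntegrable (by fun_prop) _ _
  have hmain : ∫ τ in (0 : ℝ)..T, (T - τ) *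
      ((({k : ℕ | τ ≤ κ k ∧ κ k < τ + δ}.ncard : ℕ) : ℝ) - δ * τ / (2 * Real.pi)) ^ 2 ≤
      ∫ τ in (0 : ℝ)..T, (4 * ((T - τ) * R (τ + δ) ^ 2) + 4 * ((T - τ) * R τ ^ 2) +
        (T - τ) * (2 * δ ^ 4)) := by
    rw [intervalIntegral.integral_of_le hT0.le, intervalIntegral.integral_of_le hT0.le]
    refine integral_mono_of_nonneg ?_ ?_ ?_
    · refine (ae_restrict_iff' measurableSet_Ioc).2 (Filter.Eventually.of_forall fun v hv => ?_)
      exact mul_nonneg (by linarith [hv.2]) (sq_nonneg _)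
    · exact (((hish.const_mul 4).add ((hi T 0 T).const_mul 4)).add hci).1
    · have n1 := (Set.countable_range κ).ae_notMem volume
      have n2 := (Set.countable_range fun k => κ k - δ).ae_notMem volume
      refine (ae_restrict_iff' measurableSet_Ioc).2 ?_
      filter_upwards [n1, n2] with τ h1 h2 hτ
      rw [E4_cnt hf hδ h1 h2]
      have h3 : Nc κ (τ + δ) - Nc κ τ - δ * τ / (2 * Real.pi) =
          R (τ + δ) - R τ + δ ^ 2 / (4 * Real.pi) := by
        simp only [hR]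
        field_simp
        ring
      rw [h3]
      have h4 : (R (τ + δ) - R τ + δ ^ 2 / (4 * Real.pi)) ^ 2 ≤
          4 * R (τ + δ) ^ 2 + 4 * R τ ^ 2 + 2 * (δ ^ 2 / (4 * Real.pi)) ^ 2 := by
        nlinarith [sq_nonneg (R (τ + δ) + R τ),
          sq_nonneg (R (τ + δ) - R τ - δ ^ 2 / (4 * Real.pi))]
      have h5 : (δ ^ 2 / (4 * Real.pi)) ^ 2 ≤ δ ^ 4 := by
        have h6 : δ ^ 2 / (4 * Real.pi) ≤ δ ^ 2 := by
          rw [div_le_iff₀ (by positivity)]
          nlinarith [sq_nonneg δ]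
        calc (δ ^ 2 / (4 * Real.pi)) ^ 2 ≤ (δ ^ 2) ^ 2 := by gcongr
          _ = δ ^ 4 := by ring
      have h7 : 0 ≤ T - τ := by linarith [hτ.2]
      calc (T - τ) * (R (τ + δ) - R τ + δ ^ 2 / (4 * Real.pi)) ^ 2
          ≤ (T - τ) * (4 * R (τ + δ) ^ 2 + 4 * R τ ^ 2 + 2 * δ ^ 4) :=
            mul_le_mul_of_nonneg_left (by linarith) h7
        _ = _ := by ring
  have hsum : ∫ τ in (0 : ℝ)..T, (4 * ((T - τ) * R (τ + δ) ^ 2) + 4 * ((T - τ) * R τ ^ 2) +
        (T - τ) * (2 * δ ^ 4)) ≤ 8 * K + T ^ 2 * δ ^ 4 := by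
    rw [intervalIntegral.integral_add ((hish.const_mul 4).add ((hi T 0 T).const_mul 4)) hci,
      intervalIntegral.integral_add (hish.const_mul 4) ((hi T 0 T).const_mul 4),
      intervalIntegral.integral_const_mul, intervalIntegral.integral_const_mul,
      intervalIntegral.integral_mul_const, E4_weight]
    nlinarith
  have htm : FE35.tmean (T + δ) (fun y => R y ^ 2) = 2 / (T + δ) ^ 2 * K := rfl
  show FE35.tmean T _ ≤ 16 * FE35.tmean (T + δ) (fun y => R y ^ 2) + 2 * δ ^ 4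
  rw [htm]
  unfold FE35.tmean
  have hT2 : 0 < T ^ 2 := by positivity
  have hq : 2 / T ^ 2 * (8 * K + T ^ 2 * δ ^ 4) = 16 * K / T ^ 2 + 2 * δ ^ 4 := by
    field_simp
    ring
  have hr : 16 * K / T ^ 2 ≤ 16 * (2 / (T + δ) ^ 2 * K) := by
    have h1 : (T + δ) ^ 2 ≤ 2 * T ^ 2 := by nlinarith
    have h2 : 0 < (T + δ) ^ 2 := by positivity
    have h3 : 1 / T ^ 2 ≤ 2 / (T + δ) ^ 2 := by
      rw [div_le_div_iff₀ hT2 h2]
      linarith
    calc 16 * K / T ^ 2 = 16 * K * (1 / T ^ 2) := by ring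
      _ ≤ 16 * K * (2 / (T + δ) ^ 2) := mul_le_mul_of_nonneg_left h3 (by positivity)
      _ = _ := by ring
  calc 2 / T ^ 2 * ∫ τ in (0 : ℝ)..T, (T - τ) *
      ((({k : ℕ | τ ≤ κ k ∧ κ k < τ + δ}.ncard : ℕ) : ℝ) - δ * τ / (2 * Real.pi)) ^ 2
      ≤ 2 / T ^ 2 * (8 * K + T ^ 2 * δ ^ 4) :=
        mul_le_mul_of_nonneg_left (hmain.trans hsum) (by positivity)
    _ = 16 * K / T ^ 2 + 2 * δ ^ 4 := hq
    _ ≤ _ := by linarith

theorem dk_mono : Monotone FB23.dk := by
  intro a b h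
  unfold FB23.dk
  exact Nat.log_mono_right (Nat.floor_mono h)

theorem dk_sub {T δ : ℝ} (hδ : δ ≤ 1) (hT : 2 ≤ T) : FB23.dk T - 1 ≤ FB23.dk (T - δ) := by
  have h1 : (2 : ℝ) ^ FB23.dk T ≤ T := FB23.dk_le (by linarith)
  have h2 : T - δ < 2 * (2 : ℝ) ^ FB23.dk (T - δ) := FB23.dk_lt (by linarith)
  have h3 : (2 : ℝ) ^ FB23.dk T < 2 ^ (FB23.dk (T - δ) + 2) := by
    rw [pow_add]
    linarith
  have h4 := (pow_lt_pow_iff_right₀ (by norm_num : (1 : ℝ) < 2)).1 h3
  omega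

variable [F37.Sq]

open F37

theorem weyl_low (hX : Surface Γ D) (m' : Mt Γ D) {c L₀ : ℝ} (hc : 0 < c) (hL : 1 ≤ L₀)
    (h : ∀ᶠ T : ℝ in atTop, c * Sq.g (FB23.dk T - 2) ≤ EM73.numVar m' T (1 / L₀)) :
    ∀ᶠ T : ℝ in atTop, c / 32 * Sq.g (FB23.dk T - 3) ≤
      FE35.tmean T fun y => (Nc (FG33.lam m') y - y ^ 2 / (4 * Real.pi)) ^ 2 := by
  have hf := fun y => BE33.Fin_fin hX m' y
  set δ : ℝ := 1 / L₀ with hδd
  have hδ : 0 < δ := by positivity
  have hδ1 : δ ≤ 1 := by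
    rw [hδd, div_le_one (by linarith)]
    exact hL
  have hsh : Tendsto (fun T : ℝ => T - δ) atTop atTop := tendsto_atTop_add_const_right _ _ tendsto_id
  have hg := (g_tendsto.comp (sub_tendsto 3)).eventually_ge_atTop (4 / c)
  filter_upwards [hsh.eventually h, eventually_ge_atTop (5 : ℝ), hg] with T h1 h3 h4
  have hb := E4_bd (κ := FG33.lam m') hf (T := T - δ) hδ (by linarith)
  have h5 : T - δ + δ = T := by ring
  rw [h5] at hb
  have h6 : EM73.numVar m' (T - δ) δ ≤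
      16 * FE35.tmean T (fun y => (Nc (FG33.lam m') y - y ^ 2 / (4 * Real.pi)) ^ 2) +
        2 * δ ^ 4 := hb
  set X := FE35.tmean T (fun y => (Nc (FG33.lam m') y - y ^ 2 / (4 * Real.pi)) ^ 2)
  have h7 : Sq.g (FB23.dk T - 3) ≤ Sq.g (FB23.dk (T - δ) - 2) := by
    have := dk_sub hδ1 (show (2 : ℝ) ≤ T by linarith)
    exact Sq.mono (by omega)
  have h8 : (4 : ℝ) / c ≤ Sq.g (FB23.dk T - 3) := h4
  rw [div_le_iff₀ hc] at h8
  have h9 := mul_le_mul_of_nonneg_left h7 hc.le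
  have h15 : δ ^ 4 ≤ 1 := pow_le_one₀ hδ.le hδ1
  linarith

theorem omega (hX : Surface Γ D) (m' : Mt Γ D) {F f : ℝ → ℝ} (hF : Monotone F)
    (hF1 : Tendsto F atTop atTop) (hf1 : ∀ᶠ y : ℝ in atTop, f y ≤ F y / 2)
    (h : ∀ᶠ T : ℝ in atTop, F T ≤
      FE35.tmean T fun y => (Nc (FG33.lam m') y - y ^ 2 / (4 * Real.pi)) ^ 2) :
    ∃ᶠ y : ℝ in atTop, √(f y) ≤ |Nc (FG33.lam m') y - y ^ 2 / (4 * Real.pi)| := by
  have hf := fun y => BE33.Fin_fin hX m' y
  by_contra hno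
  rw [Filter.not_frequently] at hno
  set R : ℝ → ℝ := fun y => Nc (FG33.lam m') y - y ^ 2 / (4 * Real.pi) with hR
  obtain ⟨y1, hy1⟩ := Filter.eventually_atTop.1 (hno.and hf1)
  set y0 : ℝ := max y1 1 with hy0d
  have hy00 : 0 < y0 := lt_of_lt_of_le one_pos (le_max_right _ _)
  set K : ℝ := ∫ u in (0 : ℝ)..y0, |(y0 + 1 - u) * R u ^ 2| with hK
  have hK0 : 0 ≤ K := intervalIntegral.integral_nonneg hy00.le fun u _ => abs_nonneg _
  have hi := fun S a b : ℝ => E4_int hf S a b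
  have hRb : ∀ y, y0 ≤ y → R y ^ 2 ≤ F y / 2 := by
    intro y hy
    obtain ⟨h1, h2⟩ := hy1 y ((le_max_left _ _).trans hy)
    rw [not_le] at h1
    have h3 : 0 < √(f y) := lt_of_le_of_lt (abs_nonneg _) h1
    have h4 : 0 ≤ f y := (Real.sqrt_pos.1 h3).le
    calc R y ^ 2 = |R y| ^ 2 := (sq_abs _).symm
      _ ≤ √(f y) ^ 2 := by gcongr
      _ = f y := Real.sq_sqrt h4
      _ ≤ F y / 2 := h2
  have hup : ∀ T, y0 ≤ T → FE35.tmean T (fun y => R y ^ 2) ≤ 2 * K / T + F T / 2 := by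
    intro T hT
    have hT0 : 0 < T := lt_of_lt_of_le hy00 hT
    have hFT : 0 ≤ F T / 2 := (sq_nonneg _).trans (hRb T hT)
    unfold FE35.tmean
    have h1 : ∫ u in (0 : ℝ)..T, (T - u) * R u ^ 2 =
        (∫ u in (0 : ℝ)..y0, (T - u) * R u ^ 2) + ∫ u in y0..T, (T - u) * R u ^ 2 :=
      (intervalIntegral.integral_add_adjacent_intervals (hi T 0 y0) (hi T y0 T)).symm
    have h2 : ∫ u in (0 : ℝ)..y0, (T - u) * R u ^ 2 ≤ T * K := by
      rw [hK, ← intervalIntegral.integral_const_mul]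
      refine intervalIntegral.integral_mono_on hy00.le (hi T 0 y0)
        ((hi (y0 + 1) 0 y0).abs.const_mul T) fun u hu => ?_
      rw [abs_of_nonneg (mul_nonneg (by linarith [hu.2]) (sq_nonneg _)), ← mul_assoc]
      refine mul_le_mul_of_nonneg_right ?_ (sq_nonneg _)
      nlinarith [hu.1, hu.2]
    have h3 : ∫ u in y0..T, (T - u) * R u ^ 2 ≤ F T / 2 * (T ^ 2 / 2) := by
      calc ∫ u in y0..T, (T - u) * R u ^ 2
          ≤ ∫ u in y0..T, F T / 2 * (T - u) := by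
            refine intervalIntegral.integral_mono_on hT (hi T y0 T)
              (Continuous.intervalIntegrable (by fun_prop) _ _) fun u hu => ?_
            have h4 := hRb u hu.1
            have h5 := hF hu.2
            have h7 : 0 ≤ T - u := by linarith [hu.2]
            nlinarith
        _ ≤ ∫ u in (0 : ℝ)..T, F T / 2 * (T - u) := by
            refine intervalIntegral.integral_mono_interval hy00.le hT le_rfl ?_
              (Continuous.intervalIntegrable (by fun_prop) _ _)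
            refine (ae_restrict_iff' measurableSet_Ioc).2
              (Filter.Eventually.of_forall fun v hv => ?_)
            exact mul_nonneg hFT (by linarith [hv.2])
        _ = _ := by rw [intervalIntegral.integral_const_mul, E4_weight]
    rw [h1]
    calc 2 / T ^ 2 * ((∫ u in (0 : ℝ)..y0, (T - u) * R u ^ 2) + ∫ u in y0..T, (T - u) * R u ^ 2)
        ≤ 2 / T ^ 2 * (T * K + F T / 2 * (T ^ 2 / 2)) :=
          mul_le_mul_of_nonneg_left (add_le_add h2 h3) (by positivity)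
      _ = _ := by
          field_simp
  have hev : ∀ᶠ T : ℝ in atTop, 2 * K / T ≤ 1 := by
    filter_upwards [eventually_ge_atTop (2 * K + 1)] with T hT
    rw [div_le_one (by linarith)]
    linarith
  have hall : ∀ᶠ T : ℝ in atTop, False := by
    filter_upwards [h, hev, hF1.eventually_ge_atTop 3, eventually_ge_atTop y0] with T h1 h2 h3 h4
    have h5 := hup T h4
    linarith
  exact (Filter.eventually_const.1 hall)

end N37
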