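import Pool.Agent.LibBE37N.D2
import Pool.Agent.LibBE37N.E1
import Pool.Agent.LibBE37N.E2
import Pool.Agent.LibBE37N.E3
import Pool.Agent.LibBE37N.E4
import Pool.Agent.LibBE37F.Sm
import Pool.Agent.LibBE37Z.Z7

/-! The number variance and the remainder in Weyl's law of almost every metric (helper33). -/

open MeasureTheory Set Filter Topology
open scoped ContDiff unitInterval

namespace N37

variable [F37.Sq]

open BGS BR F37 GWin SC35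
open B35 (Dt)
open BE33 (Nc)

variable {Γ : Type} [Group Γ] [MulAction Γ Pl] {D : Set Pl} {P : Dt} {ν : ℕ → Measure I}

/-- The number variance of almost every metric. -/
theorem nv_ae (hP : Ok Γ D P) (hν : Law ν) : ∀ᵐ ξ ∂Pm ν, ∀ m' : Mt Γ D,
    m'.1.1 = P.X Γ D ξ → ∃ c L₀ : ℝ, 0 < c ∧ 1 ≤ L₀ ∧ ∀ᶠ T : ℝ in atTop, ∀ L : ℝ, L₀ ≤ L →
      L ≤ Real.exp (c * Sq.g (FB23.dk T - 2)) →
        c * Sq.g (FB23.dk T - 2) ≤ EM73.numVar m' T (1 / L) := by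
  obtain ⟨b, hb⟩ := ker_exists
  obtain ⟨ρ, M, hρ, hρ', hM⟩ := Ac_Am hb
  have h0 : ∀ i : ℕ, 0 < 1 / ((i : ℝ) + 1) := fun i => by positivity
  have key : ∀ i : ℕ, ∃ (p : Pr) (κ1 : ℝ), p.Ok ∧ 0 < κ1 ∧
      (∀ (ξ : Dir → I) (m' : Mt Γ D), m'.1.1 = P.X Γ D ξ →
        (∀ᶠ k : ℕ in atTop, ξ ∈ Bs P p Γ D (1 / ((i : ℝ) + 1)) k) → W37.Tra D P p κ1 ξ m') ∧
      ∀ᵐ ξ ∂Pm ν, (∀ᶠ k : ℕ in atTop, ξ ∈ Bs P p Γ D (1 / ((i : ℝ) + 1)) k) →
        (∀ z, curv (P.X Γ D ξ) z < 0) →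
        ∀ m' : Mt Γ D, m'.1.1 = P.X Γ D ξ → W37.Tra D P p κ1 ξ m' →
          ∃ M0 C : ℝ, 1 ≤ M0 ∧ 0 ≤ C ∧ ∀ᶠ k : ℕ in atTop, ∀ c : ℝ, M0 ≤ c →
            M0 * c ≤ Lm κ1 k / ρ → 1 / 50 * Real.log c - C ≤
              1 / 2 ^ k * ∫ τ in (2 : ℝ) ^ k..2 * 2 ^ k,
                st (FG33.lam m') (Ac b c) (Lm κ1 k / ρ) τ ^ 2 := by
    intro i
    obtain ⟨δ1, hδ1, H1⟩ := Z37.tra_of hP (h0 i)
    obtain ⟨δ2, hδ2, H2⟩ := nets hP hν (h0 i) hρ hM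
    obtain ⟨p, hp, hpδ⟩ := exists_Pr (lt_min hδ1 hδ2)
    obtain ⟨κ0, hκ0, H2⟩ := H2 p hp (hpδ.trans (min_le_right _ _))
    refine ⟨p, κ0, hp, hκ0, H1 p hp (hpδ.trans (min_le_left _ _)) κ0 hκ0, ?_⟩
    filter_upwards [H2 κ0 hκ0 le_rfl] with ξ hξ hB hneg m' hm' hT
    obtain ⟨a1, a2, a3⟩ := hξ hB hneg
    exact one_metric hP hp (h0 i) hκ0 hb hρ hρ' hM m' hm' hB hT a1 a2 a3
  choose p κ1 hp hκ1 hT hae using key
  filter_upwards [ae_all_iff.2 hae] with ξ hξ m' hm'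
  have hneg : ∀ z, curv (P.X Γ D ξ) z < 0 := by
    intro z
    rw [← hm']
    exact m'.2.neg z
  obtain ⟨κ, hκ, h⟩ := in_block hP hneg
  obtain ⟨i, hi⟩ := exists_nat_one_div_lt hκ
  obtain ⟨k0, hk0⟩ := h (p i) (hp i)
  have hB : ∀ᶠ k : ℕ in atTop, ξ ∈ Bs P (p i) Γ D (1 / ((i : ℝ) + 1)) k := by
    filter_upwards [eventually_ge_atTop k0] with k hk
    exact Z37.Bs_mono (h0 i).le hi.le k (hk0 k hk)
  obtain ⟨M0, C, hM0, hC, h1⟩ := hξ i hB hneg m' hm' (hT i ξ m' hm' hB)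
  have hρ0 : 0 < ρ := by linarith
  obtain ⟨M1, C1, hM1, hC1, h2⟩ := to_numVar hP.cx.hX m' hb (g := fun k => Lm (κ1 i) k / ρ) (by
    obtain ⟨-, hL2, hL3⟩ := W37.WE_Lm (hκ1 i)
    filter_upwards [hL3, hL2.eventually_ge_atTop 1] with k hk hk1
    have e1 : Lm (κ1 i) k / ρ ≤ Lm (κ1 i) k := div_le_self (by linarith) hρ
    have e2 : Lm (κ1 i) k ≤ Lm (κ1 i) k ^ 16 := le_self_pow₀ hk1 (by norm_num)
    linarith) hM0 hC h1
  exact in_T m' (hκ1 i) hρ hM1 hC1 h2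

/-- The remainder in Weyl's law of almost every metric from below. -/
theorem low_ae (hP : Ok Γ D P) (hν : Law ν) {L0 : ℝ → ℝ} (h0 : Sm L0) :
    ∀ᵐ ξ ∂Pm ν, ∀ m' : Mt Γ D, m'.1.1 = P.X Γ D ξ →
      (∃ L₁ : ℝ, ∀ᶠ T : ℝ in atTop, ∀ L : ℝ, L₁ ≤ L → L ≤ L0 T →
        Real.log (L0 T) ≤ EM73.numVar m' T (1 / L)) ∧
      (∀ᶠ T : ℝ in atTop, 2 * Real.log (L0 T) ≤
        FE35.tmean T fun y => (Nc (FG33.lam m') y - y ^ 2 / (4 * Real.pi)) ^ 2) ∧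
      ∃ᶠ y : ℝ in atTop, √(Real.log (L0 y)) ≤
        |Nc (FG33.lam m') y - y ^ 2 / (4 * Real.pi)| := by
  filter_upwards [nv_ae hP hν] with ξ hξ m' hm'
  obtain ⟨c, L₁, hc, hL₁, h1⟩ := hξ m' hm'
  -- the function `L0` against the scales
  have hL0 : ∀ (n : ℕ) (A : ℝ), n ≤ 3 → 0 < A → ∀ᶠ T : ℝ in atTop,
      A * Real.log (L0 T) ≤ Sq.g (FB23.dk T - n) := by
    intro n A hn hA
    filter_upwards [(sub_tendsto n).eventually (h0 A hA), eventually_ge_atTop (1 : ℝ),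
      FB23.dk_tendsto.eventually_ge_atTop n] with T h2 h3 h4
    refine h2 T (le_trans ?_ (FB23.dk_le h3)) ((FB23.dk_lt h3).le.trans ?_)
    · exact pow_le_pow_right₀ (by norm_num) (by omega)
    · rw [mul_comm, ← pow_succ]
      exact pow_le_pow_right₀ (by norm_num) (by omega)
  have h3 : ∀ᶠ T : ℝ in atTop, c * Sq.g (FB23.dk T - 2) ≤ EM73.numVar m' T (1 / L₁) := by
    filter_upwards [h1, (g_tendsto.comp (sub_tendsto 2)).eventually_ge_atTop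
      (Real.log L₁ / c)] with T h4 h5
    refine h4 L₁ le_rfl ?_
    rw [← Real.log_le_iff_le_exp (by linarith)]
    have h6 : Real.log L₁ / c ≤ Sq.g (FB23.dk T - 2) := h5
    rw [div_le_iff₀ hc] at h6
    linarith
  have h6 := weyl_low hP.cx.hX m' hc hL₁ h3
  refine ⟨⟨L₁, ?_⟩, ?_, ?_⟩
  · filter_upwards [h1, hL0 2 (1 / c) (by norm_num) (by positivity)] with T h8 h9 L hL1 hL2
    rw [one_div, inv_mul_le_iff₀ hc] at h9
    refine h9.trans (h8 L hL1 ?_)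
    by_cases h10 : 0 < L0 T
    · calc L ≤ L0 T := hL2
        _ = Real.exp (Real.log (L0 T)) := (Real.exp_log h10).symm
        _ ≤ _ := Real.exp_le_exp.2 h9
    · have := Real.exp_pos (c * Sq.g (FB23.dk T - 2))
      linarith
  · filter_upwards [h6, hL0 3 (64 / c) (by norm_num) (by positivity)] with T h8 h9
    refine le_trans ?_ h8
    rw [div_mul_eq_mul_div, div_le_iff₀ hc] at h9
    linarith
  · refine omega hP.cx.hX m' (F := fun T => c / 32 * Sq.g (FB23.dk T - 3))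
      (f := fun y => Real.log (L0 y)) ?_ ?_ ?_ h6
    · intro a b hab
      exact mul_le_mul_of_nonneg_left (Sq.mono (Nat.sub_le_sub_right (dk_mono hab) 3))
        (by positivity)
    · exact (g_tendsto.comp (sub_tendsto 3)).const_mul_atTop (by positivity)
    · filter_upwards [hL0 3 (64 / c) (by norm_num) (by positivity)] with T h9
      rw [div_mul_eq_mul_div, div_le_iff₀ hc] at h9
      show Real.log (L0 T) ≤ c / 32 * Sq.g (FB23.dk T - 3) / 2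
      linarith

end N37
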